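import Mathlib

/-! Near perfect matchings in three-partite hypergraphs with one abundant side. -/

set_option autoImplicit false

open Finset

namespace Pool.Agent.H861Z.Smooth

/-- affine in each coordinate -/
def Aff {ι : Type} [DecidableEq ι] (F : (ι → ℝ) → ℝ) : Prop :=
  ∀ t i s, F (Function.update t i s) =
    (1 - s) * F (Function.update t i 0) + s * F (Function.update t i 1)

section
variable {ι : Type} [DecidableEq ι]

lemma Aff.add {F G : (ι → ℝ) → ℝ} (hF : Aff F) (hG : Aff G) : Aff (fun t => F t + G t) := by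
  intro t i s
  simp only [hF t i s, hG t i s]
  ring

lemma Aff.smul {F : (ι → ℝ) → ℝ} (hF : Aff F) (c : ℝ) : Aff (fun t => c * F t) := by
  intro t i s
  simp only [hF t i s]
  ring

lemma Aff.sum {κ : Type} (S : Finset κ) {F : κ → (ι → ℝ) → ℝ} (hF : ∀ k, Aff (F k)) :
    Aff (fun t => ∑ k ∈ S, F k t) := by
  intro t i s
  simp only [mul_sum, ← sum_add_distrib]
  exact sum_congr rfl fun k _ => hF k t i s

lemma sum_update' (S : Finset ι) (t : ι → ℝ) (i : ι) (s : ℝ) (g : ℝ → ℝ) :
    ∑ e ∈ S, g (Function.update t i s e) =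
      (if i ∈ S then g s else 0) + ∑ e ∈ S.erase i, g (t e) := by
  have h : ∑ e ∈ S.erase i, g (Function.update t i s e) = ∑ e ∈ S.erase i, g (t e) :=
    sum_congr rfl fun e he => by rw [Function.update_of_ne (ne_of_mem_erase he)]
  split_ifs with hi
  · rw [← add_sum_erase S _ hi, h, Function.update_self]
  · rw [← h, erase_eq_of_notMem hi, zero_add]

lemma aff_lin (S : Finset ι) : Aff (fun t : ι → ℝ => ∑ e ∈ S, t e) := by
  intro t i s
  have h := fun s => sum_update' S t i s id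
  simp only [id] at h
  simp only [h]
  split_ifs <;> ring

lemma aff_sq (S : Finset ι) (c : ℝ) :
    Aff (fun t : ι → ℝ => (∑ e ∈ S, t e - c) ^ 2 - ∑ e ∈ S, t e ^ 2) := by
  intro t i s
  have h := fun s => sum_update' S t i s id
  have h2 := fun s => sum_update' S t i s (fun a => a ^ 2)
  simp only [id] at h
  simp only [h, h2]
  split_ifs <;> ring

lemma exists_vertex {F : (ι → ℝ) → ℝ} (hF : Aff F) (E : Finset ι) :
    ∀ t : ι → ℝ, (∀ i, 0 ≤ t i ∧ t i ≤ 1) →
      ∃ σ : ι → ℝ, (∀ i, 0 ≤ σ i ∧ σ i ≤ 1) ∧ (∀ i ∈ E, σ i = 0 ∨ σ i = 1) ∧ F σ ≤ F t := by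
  induction E using Finset.induction_on with
  | empty => exact fun t ht => ⟨t, ht, by simp, le_rfl⟩
  | insert a E _ ih =>
    intro t ht
    obtain ⟨σ, h1, h2, h3⟩ := ih t ht
    have key : ∀ b : ℝ, (b = 0 ∨ b = 1) → F (Function.update σ a b) ≤ F σ →
        ∃ σ' : ι → ℝ, (∀ i, 0 ≤ σ' i ∧ σ' i ≤ 1) ∧ (∀ i ∈ insert a E, σ' i = 0 ∨ σ' i = 1) ∧
          F σ' ≤ F t := by
      intro b hb hle
      refine ⟨Function.update σ a b, fun i => ?_, fun i hi => ?_, hle.trans h3⟩
      · by_cases h : i = a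
        · rw [h, Function.update_self]
          rcases hb with rfl | rfl <;> norm_num
        · rw [Function.update_of_ne h]; exact h1 i
      · by_cases h : i = a
        · rw [h, Function.update_self]; exact hb
        · rw [Function.update_of_ne h]
          exact h2 i ((mem_insert.1 hi).resolve_left h)
    have h4 := hF σ a (σ a)
    rw [Function.update_eq_self] at h4
    obtain ⟨h5, h6⟩ := h1 a
    by_cases h : F (Function.update σ a 0) ≤ F (Function.update σ a 1)
    · refine key 0 (Or.inl rfl) ?_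
      rw [h4]; nlinarith
    · refine key 1 (Or.inr rfl) ?_
      rw [h4]; nlinarith

end

/-- Hall's theorem with deficiency. -/
lemma hall_def {ι α β : Type} [DecidableEq ι] [DecidableEq α] [DecidableEq β] (E : Finset ι)
    (x : ι → α) (y : ι → β) (X : Finset α) (B : ℝ) (hB : 0 ≤ B)
    (h : ∀ S ⊆ X, (#S : ℝ) ≤ #((E.filter (fun e => x e ∈ S)).image y) + B) :
    ∃ M ⊆ E, Set.InjOn x M ∧ Set.InjOn y M ∧ (#X : ℝ) - #M ≤ B := by
  classical
  let r := ⌊B⌋₊
  let t : X → Finset (β ⊕ Fin r) := fun v =>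
    ((E.filter (fun e => x e = v)).image y).disjSum univ
  have hall : ∀ s : Finset X, #s ≤ #(s.biUnion t) := by
    intro s
    rcases s.eq_empty_or_nonempty with rfl | ⟨v0, hv0⟩
    · simp
    let S : Finset α := s.map (Function.Embedding.subtype _)
    have hS : S ⊆ X := by
      intro v hv
      obtain ⟨w, -, rfl⟩ := mem_map.1 hv
      exact w.2
    have h1 := h S hS
    have h2 : ((E.filter (fun e => x e ∈ S)).image y).disjSum (univ : Finset (Fin r)) ⊆
        s.biUnion t := by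
      intro b hb
      rw [mem_biUnion]
      rcases b with b | b
      · rw [inl_mem_disjSum, mem_image] at hb
        obtain ⟨e, he, rfl⟩ := hb
        obtain ⟨he1, he2⟩ := mem_filter.1 he
        obtain ⟨w, hw, hw2⟩ := mem_map.1 he2
        refine ⟨w, hw, ?_⟩
        simp only [t, inl_mem_disjSum]
        exact mem_image_of_mem y (mem_filter.2 ⟨he1, hw2.symm⟩)
      · exact ⟨v0, hv0, by simp [t]⟩
    have h3 := card_le_card h2
    rw [card_disjSum, card_univ, Fintype.card_fin] at h3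
    have h4 : #S = #s := card_map _
    have h5 : #S ≤ #((E.filter (fun e => x e ∈ S)).image y) + r := by
      have : #S - #((E.filter (fun e => x e ∈ S)).image y) ≤ r := by
        apply Nat.le_floor
        rcases le_total (#S) (#((E.filter (fun e => x e ∈ S)).image y)) with h6 | h6
        · rw [Nat.sub_eq_zero_of_le h6]; simpa using hB
        · rw [Nat.cast_sub h6]; linarith
      omega
    omega
  obtain ⟨f, hf, hft⟩ := (all_card_le_biUnion_card_iff_exists_injective t).1 hall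
  let G : Finset X := univ.filter (fun v => (f v).isLeft)
  have hG : ∀ v : X, v ∈ G → ∃ e ∈ E, x e = v ∧ f v = Sum.inl (y e) := by
    intro v hv
    have h1 := (mem_filter.1 hv).2
    have h2 := hft v
    obtain ⟨b, hb⟩ := Sum.isLeft_iff.1 h1
    rw [hb] at h2
    simp only [t, inl_mem_disjSum, mem_image, mem_filter] at h2
    obtain ⟨e, ⟨he1, he2⟩, rfl⟩ := h2
    exact ⟨e, he1, he2, hb⟩
  choose g hgE hgx hgy using hG
  refine ⟨G.attach.image (fun v => g v.1 v.2), ?_, ?_, ?_, ?_⟩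
  · intro e he
    obtain ⟨v, -, rfl⟩ := mem_image.1 he
    exact hgE _ _
  · intro e he e' he' hee
    obtain ⟨v, -, rfl⟩ := mem_image.1 (mem_coe.1 he)
    obtain ⟨v', -, rfl⟩ := mem_image.1 (mem_coe.1 he')
    rw [hgx, hgx] at hee
    have : v = v' := Subtype.ext (Subtype.ext hee)
    rw [this]
  · intro e he e' he' hee
    obtain ⟨v, -, rfl⟩ := mem_image.1 (mem_coe.1 he)
    obtain ⟨v', -, rfl⟩ := mem_image.1 (mem_coe.1 he')
    have h1 : f v.1 = f v'.1 := by rw [hgy _ v.2, hgy _ v'.2, hee]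
    have : v = v' := Subtype.ext (hf h1)
    rw [this]
  · rw [card_image_of_injective, card_attach]
    · have h1 : #(univ.filter (fun v : X => ¬ (f v).isLeft)) ≤ r := by
        have : #(univ.filter (fun v : X => ¬ (f v).isLeft)) ≤
            #((univ : Finset (Fin r)).map (Function.Embedding.inr (α := β))) := by
          refine card_le_card_of_injOn f ?_ hf.injOn
          intro v hv
          have h1 := (mem_filter.1 (mem_coe.1 hv)).2
          rcases h : f v with b | b
          · rw [h] at h1; simp at h1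
          · simp
        simpa using this
      have h2 := card_filter_add_card_filter_not (s := (univ : Finset X)) (fun v => (f v).isLeft)
      rw [card_univ, Fintype.card_coe] at h2
      have h3 : (r : ℝ) ≤ B := Nat.floor_le hB
      have h4 : (#X : ℝ) ≤ #G + r := by
        have : #X ≤ #G + r := by simp only [G]; omega
        exact_mod_cast this
      linarith
    · intro v v' hvv
      have h1 := congrArg x hvv
      simp only at h1
      rw [hgx, hgx] at h1
      exact Subtype.ext (Subtype.ext h1)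

lemma abs_le_sq {a s : ℝ} (hs : 0 < s) : |a| ≤ a ^ 2 / (2 * s) + s / 2 := by
  rw [div_add_div _ _ (by positivity) (by norm_num), le_div_iff₀ (by positivity), ← sq_abs a]
  nlinarith [sq_nonneg (|a| - s)]

theorem matching {ι α β γ : Type} [DecidableEq ι] [DecidableEq α] [DecidableEq β] [DecidableEq γ]
    (E : Finset ι) (x : ι → α) (y : ι → β) (z : ι → γ) (X : Finset α) (Y : Finset β)
    (hx : ∀ e ∈ E, x e ∈ X) (hy : ∀ e ∈ E, y e ∈ Y) (p R s : ℝ) (hp0 : 0 ≤ p) (hp1 : p ≤ 1)
    (hR : 0 < R) (hs : 0 < s) :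
    ∃ M ⊆ E, Set.InjOn x M ∧ Set.InjOn y M ∧ Set.InjOn z M ∧
      R * ((#X : ℝ) - #M) ≤
        (∑ v ∈ X, ((p * #(E.filter (fun e => x e = v)) - R) ^ 2 +
            p * #(E.filter (fun e => x e = v))) +
          ∑ v ∈ Y, ((p * #(E.filter (fun e => y e = v)) - R) ^ 2 +
            p * #(E.filter (fun e => y e = v)))) / (2 * s) +
        s * (#X + #Y) / 2 + p ^ 2 * ∑ w ∈ E.image z, (#(E.filter (fun e => z e = w)) : ℝ) ^ 2 := by
  classical
  let F : (ι → ℝ) → ℝ := fun t =>
    (1 / (2 * s)) * (∑ v ∈ X, (((∑ e ∈ E.filter (fun e => x e = v), t e - R) ^ 2 -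
        ∑ e ∈ E.filter (fun e => x e = v), t e ^ 2) + ∑ e ∈ E.filter (fun e => x e = v), t e) +
      ∑ v ∈ Y, (((∑ e ∈ E.filter (fun e => y e = v), t e - R) ^ 2 -
        ∑ e ∈ E.filter (fun e => y e = v), t e ^ 2) + ∑ e ∈ E.filter (fun e => y e = v), t e)) +
    ∑ w ∈ E.image z, ((∑ e ∈ E.filter (fun e => z e = w), t e - 0) ^ 2 -
        ∑ e ∈ E.filter (fun e => z e = w), t e ^ 2)
  have hF : Aff F :=
    (((Aff.sum X fun v => (aff_sq _ R).add (aff_lin _)).add
      (Aff.sum Y fun v => (aff_sq _ R).add (aff_lin _))).smul _).add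
      (Aff.sum _ fun w => aff_sq _ 0)
  obtain ⟨σ, -, hσ, hle⟩ := exists_vertex hF E (fun _ => p) (fun _ => ⟨hp0, hp1⟩)
  let E1 := E.filter (fun e => σ e = 1)
  have hsum : ∀ P : ι → Prop, ∀ [DecidablePred P], ∑ e ∈ E.filter P, σ e = #(E1.filter P) ∧
      ∑ e ∈ E.filter P, σ e ^ 2 = #(E1.filter P) := by
    intro P _
    have h1 : E1.filter P = (E.filter P).filter (fun e => σ e = 1) := by
      simp only [E1, filter_filter, and_comm]
    rw [h1, card_filter]
    push_cast
    constructor <;>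
    · refine sum_congr rfl fun e he => ?_
      rcases hσ e (mem_filter.1 he).1 with h | h <;> simp [h]
  set dx : α → ℝ := fun v => #(E1.filter (fun e => x e = v)) with hdx
  set dy : β → ℝ := fun v => #(E1.filter (fun e => y e = v)) with hdy
  set dz : γ → ℕ := fun w => #(E1.filter (fun e => z e = w)) with hdz
  have hFσ : F σ = (1 / (2 * s)) * (∑ v ∈ X, (dx v - R) ^ 2 + ∑ v ∈ Y, (dy v - R) ^ 2) +
      ∑ w ∈ E.image z, ((dz w : ℝ) ^ 2 - dz w) := by
    simp only [F, (hsum _).1, (hsum _).2, hdx, hdy, hdz, sub_add_cancel, sub_zero]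
  have hFp : F (fun _ => p) ≤ (∑ v ∈ X, ((p * #(E.filter (fun e => x e = v)) - R) ^ 2 +
            p * #(E.filter (fun e => x e = v))) +
          ∑ v ∈ Y, ((p * #(E.filter (fun e => y e = v)) - R) ^ 2 +
            p * #(E.filter (fun e => y e = v)))) / (2 * s) +
        p ^ 2 * ∑ w ∈ E.image z, (#(E.filter (fun e => z e = w)) : ℝ) ^ 2 := by
    simp only [F, sum_const, nsmul_eq_mul, sub_zero]
    rw [mul_sum, one_div, inv_mul_eq_div]
    refine add_le_add (div_le_div_of_nonneg_right (add_le_add ?_ ?_) (by positivity)) ?_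
    · refine sum_le_sum fun v _ => ?_
      have : 0 ≤ (#(E.filter (fun e => x e = v)) : ℝ) * p ^ 2 := by positivity
      nlinarith
    · refine sum_le_sum fun v _ => ?_
      have : 0 ≤ (#(E.filter (fun e => y e = v)) : ℝ) * p ^ 2 := by positivity
      nlinarith
    · refine sum_le_sum fun v _ => ?_
      have : 0 ≤ (#(E.filter (fun e => z e = v)) : ℝ) * p ^ 2 := by positivity
      nlinarith
  let E2 := E1.filter (fun e => dz (z e) = 1)
  have hE21 : E2 ⊆ E1 := filter_subset _ _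
  have hE1 : E1 ⊆ E := filter_subset _ _
  have hz2 : Set.InjOn z E2 := by
    intro e he e' he' hee
    have h1 := (mem_filter.1 (mem_coe.1 he)).2
    have h2 : e ∈ E1.filter (fun f => z f = z e) := mem_filter.2 ⟨hE21 he, rfl⟩
    have h3 : e' ∈ E1.filter (fun f => z f = z e) := mem_filter.2 ⟨hE21 he', hee.symm⟩
    exact card_le_one.1 (le_of_eq h1) _ h2 _ h3
  have hrem : (#(E1.filter (fun e => ¬ dz (z e) = 1)) : ℝ) ≤
      ∑ w ∈ E.image z, ((dz w : ℝ) ^ 2 - dz w) := by
    rw [card_eq_sum_card_fiberwise (f := z) (t := E.image z)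
      (fun e he => mem_coe.2 (mem_image_of_mem z (hE1 (mem_filter.1 (mem_coe.1 he)).1)))]
    push_cast
    refine sum_le_sum fun w _ => ?_
    by_cases h1 : dz w = 1
    · have : (E1.filter (fun e => ¬ dz (z e) = 1)).filter (fun e => z e = w) = ∅ := by
        rw [filter_eq_empty_iff]
        intro e he h
        exact (mem_filter.1 he).2 (h ▸ h1)
      rw [this, h1]; simp
    · have h2 : #((E1.filter (fun e => ¬ dz (z e) = 1)).filter (fun e => z e = w)) ≤ dz w :=
        card_le_card (filter_subset_filter _ (filter_subset _ _))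
      have h3 : (#((E1.filter (fun e => ¬ dz (z e) = 1)).filter (fun e => z e = w)) : ℝ) ≤ dz w := by
        exact_mod_cast h2
      rcases Nat.eq_zero_or_pos (dz w) with h0 | h0
      · rw [h0] at h3 ⊢; simpa using h3
      · have h4 : (2 : ℝ) ≤ dz w := by exact_mod_cast (by omega : 2 ≤ dz w)
        nlinarith
  set B : ℝ := (∑ v ∈ X, |dx v - R| + ∑ v ∈ Y, |dy v - R| +
    #(E1.filter (fun e => ¬ dz (z e) = 1))) / R with hB
  have hB0 : 0 ≤ B := by positivity
  obtain ⟨M, hM, h1, h2, h3⟩ := hall_def E2 x y X B hB0 (by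
    intro S hS
    set N := (E2.filter (fun e => x e ∈ S)).image y with hN
    have hNY : N ⊆ Y := by
      intro u hu
      obtain ⟨e, he, rfl⟩ := mem_image.1 hu
      exact hy e (hE1 (hE21 (mem_filter.1 he).1))
    have a1 : (#(E1.filter (fun e => x e ∈ S)) : ℝ) = ∑ v ∈ S, dx v := by
      rw [card_eq_sum_card_fiberwise (f := x) (t := S)
        (fun e he => mem_coe.2 (mem_filter.1 (mem_coe.1 he)).2)]
      push_cast
      refine sum_congr rfl fun v hv => ?_
      simp only [hdx, filter_filter]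
      congr 2
      ext e
      simp only [mem_filter, and_congr_right_iff]
      exact fun _ => ⟨fun h => h.2, fun h => ⟨h ▸ hv, h⟩⟩
    have a2 : (#(E2.filter (fun e => x e ∈ S)) : ℝ) ≤ ∑ u ∈ N, dy u := by
      rw [card_eq_sum_card_fiberwise (f := y) (t := N)
        (fun e he => mem_coe.2 (mem_image_of_mem y (mem_coe.1 he)))]
      push_cast
      refine sum_le_sum fun u _ => ?_
      simp only [hdy]
      exact_mod_cast card_le_card (filter_subset_filter _ ((filter_subset _ _).trans hE21))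
    have a3 : (#(E1.filter (fun e => x e ∈ S)) : ℝ) ≤ #(E2.filter (fun e => x e ∈ S)) +
        #(E1.filter (fun e => ¬ dz (z e) = 1)) := by
      have : E1.filter (fun e => x e ∈ S) ⊆ E2.filter (fun e => x e ∈ S) ∪
          E1.filter (fun e => ¬ dz (z e) = 1) := by
        intro e he
        obtain ⟨he1, he2⟩ := mem_filter.1 he
        by_cases h : dz (z e) = 1
        · exact mem_union_left _ (mem_filter.2 ⟨mem_filter.2 ⟨he1, h⟩, he2⟩)
        · exact mem_union_right _ (mem_filter.2 ⟨he1, h⟩)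
      exact_mod_cast (card_le_card this).trans (card_union_le _ _)
    have a4 : R * #S ≤ ∑ v ∈ S, dx v + ∑ v ∈ X, |dx v - R| := by
      have : ∑ v ∈ S, |dx v - R| ≤ ∑ v ∈ X, |dx v - R| :=
        sum_le_sum_of_subset_of_nonneg hS fun _ _ _ => abs_nonneg _
      have h2 : R * #S ≤ ∑ v ∈ S, (dx v + |dx v - R|) := by
        rw [mul_comm, ← nsmul_eq_mul, ← sum_const]
        exact sum_le_sum fun v _ => by linarith [neg_abs_le (dx v - R)]
      rw [sum_add_distrib] at h2
      linarith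
    have a5 : ∑ u ∈ N, dy u ≤ R * #N + ∑ v ∈ Y, |dy v - R| := by
      have : ∑ v ∈ N, |dy v - R| ≤ ∑ v ∈ Y, |dy v - R| :=
        sum_le_sum_of_subset_of_nonneg hNY fun _ _ _ => abs_nonneg _
      have h2 : ∑ u ∈ N, dy u ≤ ∑ v ∈ N, (R + |dy v - R|) :=
        sum_le_sum fun v _ => by linarith [le_abs_self (dy v - R)]
      rw [sum_add_distrib, sum_const, nsmul_eq_mul, mul_comm] at h2
      linarith
    rw [hB, ← sub_le_iff_le_add', le_div_iff₀ hR]
    nlinarith)
  refine ⟨M, hM.trans (hE21.trans hE1), h1, h2, hz2.mono (coe_subset.2 hM), ?_⟩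
  have b1 : ∑ v ∈ X, |dx v - R| ≤ (∑ v ∈ X, (dx v - R) ^ 2) / (2 * s) + s * #X / 2 := by
    calc _ ≤ ∑ v ∈ X, ((dx v - R) ^ 2 / (2 * s) + s / 2) := sum_le_sum fun v _ => abs_le_sq hs
      _ = _ := by rw [sum_add_distrib, ← sum_div, sum_const, nsmul_eq_mul]; ring
  have b2 : ∑ v ∈ Y, |dy v - R| ≤ (∑ v ∈ Y, (dy v - R) ^ 2) / (2 * s) + s * #Y / 2 := by
    calc _ ≤ ∑ v ∈ Y, ((dy v - R) ^ 2 / (2 * s) + s / 2) := sum_le_sum fun v _ => abs_le_sq hs
      _ = _ := by rw [sum_add_distrib, ← sum_div, sum_const, nsmul_eq_mul]; ring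
  have b3 : R * B = ∑ v ∈ X, |dx v - R| + ∑ v ∈ Y, |dy v - R| +
      #(E1.filter (fun e => ¬ dz (z e) = 1)) := by rw [hB]; field_simp
  have b4 : R * ((#X : ℝ) - #M) ≤ R * B := mul_le_mul_of_nonneg_left h3 hR.le
  rw [hFσ, one_div, inv_mul_eq_div, add_div] at hle
  linarith

/-- Covering the bad terms by pairs and singles. -/
theorem cover {ι : Type} (S Bad : Finset ℕ) (P : Finset ι) (pr m1 m2 : ι → ℕ)
    (hpr : ∀ e ∈ P, pr e ∈ S) (h1 : ∀ e ∈ P, m1 e ∈ Bad) (h2 : ∀ e ∈ P, m2 e ∈ Bad)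
    (ipr : Set.InjOn pr P) (i1 : Set.InjOn m1 P) (i2 : Set.InjOn m2 P)
    (i12 : ∀ e ∈ P, ∀ e' ∈ P, m1 e ≠ m2 e') (hmod : ∀ e ∈ P, m1 e ≡ m2 e [MOD pr e])
    (hcard : #Bad ≤ #S + #P) :
    ∃ c : ℕ → ℕ, (∀ p, p ∉ S → c p = 0) ∧ ∀ m ∈ Bad, ∃ p ∈ S, m ≡ c p [MOD p] := by
  classical
  let Bad' := Bad \ (P.image m1 ∪ P.image m2)
  let S' := S \ P.image pr
  have c1 : #Bad' + 2 * #P = #Bad := by
    have hsub : P.image m1 ∪ P.image m2 ⊆ Bad := by
      intro m hm
      rcases mem_union.1 hm with h | h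
      · obtain ⟨e, he, rfl⟩ := mem_image.1 h; exact h1 e he
      · obtain ⟨e, he, rfl⟩ := mem_image.1 h; exact h2 e he
    have hdis : Disjoint (P.image m1) (P.image m2) := by
      rw [disjoint_left]
      intro m hm hm'
      obtain ⟨e, he, rfl⟩ := mem_image.1 hm
      obtain ⟨e', he', h⟩ := mem_image.1 hm'
      exact i12 e he e' he' h.symm
    have := card_sdiff_add_card_eq_card hsub
    rw [card_union_of_disjoint hdis, card_image_of_injOn i1, card_image_of_injOn i2] at this
    simp only [Bad']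
    omega
  have c2 : #S' + #P = #S := by
    have hsub : P.image pr ⊆ S := by
      intro m hm
      obtain ⟨e, he, rfl⟩ := mem_image.1 hm; exact hpr e he
    have := card_sdiff_add_card_eq_card hsub
    rw [card_image_of_injOn ipr] at this
    exact this
  have c3 : Fintype.card Bad' ≤ #S' := by rw [Fintype.card_coe]; omega
  obtain ⟨g, hg⟩ := Function.Embedding.exists_of_card_le_finset c3
  have hgS : ∀ m, g m ∈ S' := fun m => mem_coe.1 (hg ⟨m, rfl⟩)
  let c : ℕ → ℕ := fun p =>
    if h : ∃ e ∈ P, pr e = p then m1 h.choose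
    else if h' : ∃ m : Bad', g m = p then (h'.choose : ℕ) else 0
  have hc1 : ∀ e ∈ P, c (pr e) = m1 e := by
    intro e he
    have h : ∃ e' ∈ P, pr e' = pr e := ⟨e, he, rfl⟩
    simp only [c, dif_pos h]
    rw [ipr h.choose_spec.1 he h.choose_spec.2]
  refine ⟨c, fun p hp => ?_, fun m hm => ?_⟩
  · have a1 : ¬ ∃ e ∈ P, pr e = p := by
      rintro ⟨e, he, rfl⟩; exact hp (hpr e he)
    have a2 : ¬ ∃ m : Bad', g m = p := by
      rintro ⟨m, rfl⟩; exact hp (mem_sdiff.1 (hgS m)).1
    simp only [c, dif_neg a1, dif_neg a2]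
  · by_cases hm' : m ∈ Bad'
    · refine ⟨g ⟨m, hm'⟩, (mem_sdiff.1 (hgS _)).1, ?_⟩
      have a1 : ¬ ∃ e ∈ P, pr e = g ⟨m, hm'⟩ := by
        rintro ⟨e, he, h⟩
        exact (mem_sdiff.1 (hgS ⟨m, hm'⟩)).2 (h ▸ mem_image_of_mem pr he)
      have a2 : ∃ m' : Bad', g m' = g ⟨m, hm'⟩ := ⟨_, rfl⟩
      simp only [c, dif_neg a1, dif_pos a2]
      rw [g.injective a2.choose_spec]
    · have : m ∈ P.image m1 ∪ P.image m2 := by
        by_contra h
        exact hm' (mem_sdiff.2 ⟨hm, h⟩)
      rcases mem_union.1 this with h | h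
      · obtain ⟨e, he, rfl⟩ := mem_image.1 h
        exact ⟨pr e, hpr e he, by rw [hc1 e he]⟩
      · obtain ⟨e, he, rfl⟩ := mem_image.1 h
        exact ⟨pr e, hpr e he, by rw [hc1 e he]; exact (hmod e he).symm⟩

/-- From residue classes to an interval of integers with large small-prime parts. -/
theorem realise (k T L : ℕ) (hT : T < k) (hLT : L ≤ T) (S : Finset ℕ)
    (hS : ∀ p ∈ S, p.Prime ∧ p < k ∧ L < p) (c : ℕ → ℕ) (hc0 : ∀ p, p ∉ S → c p = 0)
    (hc : ∀ m ∈ Ioc T (T + k), (∃ q, q.Prime ∧ q ∣ m ∧ (q ∈ S ∨ k ≤ q)) →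
      ∃ p ∈ S, m ≡ c p [MOD p]) :
    ∃ n : ℕ, ∀ i ∈ Icc 1 k,
      L < ∏ p ∈ (range k).filter Nat.Prime, p ^ ((n + i).factorization p) := by
  classical
  set Q := (range k).filter Nat.Prime with hQ
  have hQp : ∀ p ∈ Q, p.Prime := fun p hp => (mem_filter.1 hp).2
  obtain ⟨n, hn⟩ := Nat.chineseRemainderOfFinset (fun p => T + (p ^ (2 * k) - 1) * c p)
    (fun p => p ^ (2 * k)) Q (fun p hp => pow_ne_zero _ (hQp p hp).ne_zero)
    (fun p hp q hq hpq => Nat.Coprime.pow _ _
      ((Nat.coprime_primes (hQp p hp) (hQp q hq)).2 hpq))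
  refine ⟨n, fun i hi => ?_⟩
  obtain ⟨hi1, hi2⟩ := mem_Icc.1 hi
  have hn0 : n + i ≠ 0 := by omega
  have key : ∀ p ∈ Q, n + i + c p ≡ T + i [MOD p ^ (2 * k)] := by
    intro p hp
    have h1 : 1 ≤ p ^ (2 * k) := Nat.one_le_pow _ _ (hQp p hp).pos
    have h2 := (hn p hp).add_right (i + c p)
    have h3 : T + (p ^ (2 * k) - 1) * c p + (i + c p) = T + i + p ^ (2 * k) * c p := by
      obtain ⟨d, hd⟩ := Nat.exists_eq_add_of_le h1
      rw [hd, Nat.add_sub_cancel_left]; ring
    rw [h3, ← add_assoc] at h2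
    exact h2.trans (by simp [Nat.ModEq])
  by_cases hbad : ∃ q, q.Prime ∧ q ∣ T + i ∧ (q ∈ S ∨ k ≤ q)
  · obtain ⟨p, hp, hmod⟩ := hc (T + i) (mem_Ioc.2 ⟨by omega, by omega⟩) hbad
    obtain ⟨hp1, hp2, hp3⟩ := hS p hp
    have hpQ : p ∈ Q := mem_filter.2 ⟨mem_range.2 hp2, hp1⟩
    have h1 : n + i + c p ≡ 0 + c p [MOD p] := by
      rw [zero_add]
      exact ((key p hpQ).of_dvd (dvd_pow_self p (by omega))).trans hmod
    have h2 : p ∣ n + i := (Nat.modEq_zero_iff_dvd).1 (Nat.ModEq.add_right_cancel' _ h1)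
    have h3 : p ∣ ∏ p ∈ Q, p ^ ((n + i).factorization p) :=
      (dvd_pow_self p (hp1.factorization_pos_of_dvd hn0 h2).ne').trans (dvd_prod_of_mem _ hpQ)
    exact hp3.trans_le (Nat.le_of_dvd (prod_pos fun p hp => pow_pos (hQp p hp).pos _) h3)
  · push Not at hbad
    have hm0 : T + i ≠ 0 := by omega
    have h3 : T + i ∣ ∏ p ∈ Q, p ^ ((n + i).factorization p) := by
      rw [← Nat.factorization_prime_le_iff_dvd hm0
        (prod_pos fun p hp => pow_pos (hQp p hp).pos _).ne']
      intro q hq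
      by_cases hqm : q ∣ T + i
      · obtain ⟨hqS, hqk⟩ := hbad q hq hqm
        have hqQ : q ∈ Q := mem_filter.2 ⟨mem_range.2 hqk, hq⟩
        have h4 := key q hqQ
        rw [hc0 q hqS, add_zero] at h4
        have h5 : (T + i).factorization q ≤ 2 * k :=
          (Nat.factorization_lt q hm0).le.trans (by omega)
        have h6 : q ^ (T + i).factorization q ∣ n + i :=
          (Nat.modEq_zero_iff_dvd).1 ((h4.of_dvd (pow_dvd_pow q h5)).trans
            ((Nat.modEq_zero_iff_dvd).2 (Nat.ordProj_dvd _ _)))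
        have h7 : (T + i).factorization q ≤ (n + i).factorization q :=
          (hq.pow_dvd_iff_le_factorization hn0).1 h6
        refine (hq.pow_dvd_iff_le_factorization
          (prod_pos fun p hp => pow_pos (hQp p hp).pos _).ne').1 ?_
        exact (pow_dvd_pow q h7).trans
          (dvd_prod_of_mem (fun p => p ^ ((n + i).factorization p)) hqQ)
      · rw [Nat.factorization_eq_zero_of_not_dvd hqm]
        exact Nat.zero_le _
    have := Nat.le_of_dvd (prod_pos fun p hp => pow_pos (hQp p hp).pos _) h3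
    omega

end Pool.Agent.H861Z.Smooth
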