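import Mathlib
import Pool.Agent.H373R2.T7.BilF

/-! A mean square bound for convolutions, by Parseval. -/

namespace Pool.Agent.H861Z.Smooth
open Finset
open Pool.Agent.H807R2.Dav Pool.Agent.H373R2.T7

lemma parseval {ι : Type} (I : Finset ι) (C : ι → ℝ) (φ : ι → ℤ) (M : ℕ) (hM : 1 ≤ M)
    (hφ : ∀ i ∈ I, ∀ j ∈ I, |φ i - φ j| < M) :
    ∑ t ∈ range M, ‖∑ i ∈ I, (C i : ℂ) * ee ((t : ℝ) * ((φ i : ℝ) / M))‖ ^ 2 =
      M * ∑ n ∈ I.image φ, (∑ i ∈ I, if φ i = n then C i else 0) ^ 2 := by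
  have h1 := sq_expand I (fun i => (C i : ℂ)) φ M hM
  have h2 : ∑ n ∈ I.image φ, (∑ i ∈ I, if φ i = n then C i else 0) ^ 2 =
      ∑ i ∈ I, ∑ j ∈ I, if φ i = φ j then C i * C j else 0 := by
    simp only [sq, sum_mul_sum]
    rw [sum_comm]
    refine sum_congr rfl fun i hi => ?_
    rw [sum_comm]
    refine sum_congr rfl fun j _ => ?_
    rw [sum_eq_single (φ i)]
    · by_cases h : φ i = φ j
      · simp [h]
      · simp [h, Ne.symm h]
    · intro b _ hb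
      simp [Ne.symm hb]
    · intro h
      exact absurd (mem_image_of_mem φ hi) h
  rw [h2]
  apply Complex.ofReal_injective
  rw [h1]
  push_cast
  rw [mul_sum]
  refine sum_congr rfl fun i hi => ?_
  rw [mul_sum]
  refine sum_congr rfl fun j hj => ?_
  by_cases h : φ i = φ j
  · rw [if_pos h, if_pos (by rw [h, sub_self]; exact dvd_zero _), Complex.conj_ofReal]
    push_cast
    ring
  · rw [if_neg h, if_neg]
    · simp
    · intro hd
      exact h (sub_eq_zero.1 (Int.eq_zero_of_abs_lt_dvd hd (hφ i hi j hj)))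

/-- the convolution along the linear form `γ a + β b` -/
noncomputable def cv (A B : Finset ℕ) (γ β : ℤ) (f g : ℕ → ℝ) (n : ℤ) : ℝ :=
  ∑ a ∈ A, ∑ b ∈ B, if γ * a + β * b = n then f a * g b else 0

lemma cv_swap (A B : Finset ℕ) (γ β : ℤ) (f g : ℕ → ℝ) (n : ℤ) :
    cv A B γ β f g n = cv B A β γ g f n := by
  unfold cv
  rw [sum_comm]
  refine sum_congr rfl fun b _ => sum_congr rfl fun a _ => ?_
  rw [add_comm, mul_comm (f a)]

lemma cv_l2 (A B : Finset ℕ) (γ β : ℤ) (hβ : β ≠ 0) (f g : ℕ → ℝ) (η : ℝ)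
    (hf : ∀ α : ℝ, ‖∑ a ∈ A, (f a : ℂ) * ee ((a : ℝ) * α)‖ ≤ η) (S : Finset ℤ) :
    ∑ n ∈ S, cv A B γ β f g n ^ 2 ≤ η ^ 2 * ∑ b ∈ B, g b ^ 2 := by
  classical
  set K : ℕ := (A ∪ B).sup id with hK
  have hA : ∀ a ∈ A, (a : ℤ) ≤ K := fun a ha => by
    exact_mod_cast (le_sup (f := id) (mem_union_left B ha) : a ≤ K)
  have hB : ∀ b ∈ B, (b : ℤ) ≤ K := fun b hb => by
    exact_mod_cast (le_sup (f := id) (mem_union_right A hb) : b ≤ K)
  set M : ℕ := (γ.natAbs + β.natAbs) * K + 1 with hM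
  have hM1 : 1 ≤ M := by omega
  have hM0 : (0 : ℝ) < M := by exact_mod_cast hM1
  have hMz : (M : ℤ) = (|γ| + |β|) * K + 1 := by rw [hM]; push_cast; ring
  have hd : ∀ (c : ℤ) (a a' : ℕ), (a : ℤ) ≤ K → (a' : ℤ) ≤ K → |c * a - c * a'| ≤ |c| * K := by
    intro c a a' h1 h2
    rw [← mul_sub, abs_mul]
    refine mul_le_mul_of_nonneg_left ?_ (abs_nonneg _)
    rw [abs_le]
    constructor <;> omega
  have hK0 : (0 : ℤ) ≤ K := Nat.cast_nonneg _
  have p1 := parseval (A ×ˢ B) (fun e => f e.1 * g e.2) (fun e => γ * e.1 + β * e.2) M hM1 (by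
    intro i hi j hj
    rw [mem_product] at hi hj
    have h1 := hd γ i.1 j.1 (hA _ hi.1) (hA _ hj.1)
    have h2 := hd β i.2 j.2 (hB _ hi.2) (hB _ hj.2)
    have h3 : γ * i.1 + β * i.2 - (γ * j.1 + β * j.2) =
        (γ * i.1 - γ * j.1) + (β * i.2 - β * j.2) := by ring
    rw [h3, hMz]
    have := abs_add_le (γ * i.1 - γ * j.1) (β * i.2 - β * j.2)
    linarith)
  have p2 := parseval B g (fun b => β * b) M hM1 (by
    intro i hi j hj
    have h2 := hd β i j (hB _ hi) (hB _ hj)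
    rw [hMz]
    have := mul_nonneg (abs_nonneg γ) hK0
    linarith)
  have inj : Set.InjOn (fun b : ℕ => β * (b : ℤ)) B := by
    intro a _ b _ h
    exact_mod_cast mul_left_cancel₀ hβ h
  have p3 : ∑ n ∈ B.image (fun b : ℕ => β * (b : ℤ)), (∑ i ∈ B, if β * (i : ℤ) = n then g i else 0) ^ 2 =
      ∑ b ∈ B, g b ^ 2 := by
    rw [sum_image inj]
    refine sum_congr rfl fun b hb => ?_
    rw [sum_eq_single b]
    · simp
    · intro a ha hab
      rw [if_neg (fun h => hab (inj ha hb h))]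
    · intro h; exact absurd hb h
  rw [p3] at p2
  have p4 : ∀ t : ℕ, ‖∑ i ∈ A ×ˢ B, ((f i.1 * g i.2 : ℝ) : ℂ) *
      ee ((t : ℝ) * (((γ * i.1 + β * i.2 : ℤ) : ℝ) / M))‖ ^ 2 ≤
      η ^ 2 * ‖∑ i ∈ B, (g i : ℂ) * ee ((t : ℝ) * (((β * i : ℤ) : ℝ) / M))‖ ^ 2 := by
    intro t
    have e1 : ∑ i ∈ A ×ˢ B, ((f i.1 * g i.2 : ℝ) : ℂ) *
        ee ((t : ℝ) * (((γ * i.1 + β * i.2 : ℤ) : ℝ) / M)) =
        (∑ a ∈ A, (f a : ℂ) * ee ((a : ℝ) * (t * γ / M))) *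
          ∑ i ∈ B, (g i : ℂ) * ee ((t : ℝ) * (((β * i : ℤ) : ℝ) / M)) := by
      rw [sum_mul_sum, sum_product]
      refine sum_congr rfl fun a _ => sum_congr rfl fun b _ => ?_
      have : (t : ℝ) * (((γ * a + β * b : ℤ) : ℝ) / M) =
          (a : ℝ) * (t * γ / M) + (t : ℝ) * (((β * b : ℤ) : ℝ) / M) := by
        push_cast; ring
      rw [this, ee_add]
      push_cast
      ring
    rw [e1, norm_mul, mul_pow]
    exact mul_le_mul_of_nonneg_right (pow_le_pow_left₀ (norm_nonneg _) (hf _) 2) (by positivity)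
  have p5 : ∑ n ∈ (A ×ˢ B).image (fun e => γ * (e.1 : ℤ) + β * (e.2 : ℤ)), cv A B γ β f g n ^ 2 ≤
      η ^ 2 * ∑ b ∈ B, g b ^ 2 := by
    have h1 := sum_le_sum (s := range M) fun t _ => p4 t
    rw [p1, ← mul_sum, p2] at h1
    have h2 : ∀ n : ℤ, (∑ i ∈ A ×ˢ B, if γ * (i.1 : ℤ) + β * (i.2 : ℤ) = n then f i.1 * g i.2 else 0) =
        cv A B γ β f g n := fun n => by rw [sum_product]; rfl
    simp only [h2] at h1
    refine le_of_mul_le_mul_left ?_ hM0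
    linarith
  refine le_trans ?_ p5
  rw [← sum_filter_ne_zero S]
  refine sum_le_sum_of_subset_of_nonneg ?_ (fun _ _ _ => sq_nonneg _)
  intro n hn
  have h1 := (mem_filter.1 hn).2
  by_contra h2
  apply h1
  have : cv A B γ β f g n = 0 := by
    refine sum_eq_zero fun a ha => sum_eq_zero fun b hb => if_neg fun h => h2 ?_
    exact mem_image.2 ⟨(a, b), mem_product.2 ⟨ha, hb⟩, h⟩
  rw [this]; ring

lemma cv_diff (A B : Finset ℕ) (γ β : ℤ) (hγ : γ ≠ 0) (hβ : β ≠ 0) (f f' : ℕ → ℝ) (ηA ηB : ℝ)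
    (hA : ∀ α : ℝ, ‖∑ a ∈ A, ((f a - f' a : ℝ) : ℂ) * ee ((a : ℝ) * α)‖ ≤ ηA)
    (hB : ∀ α : ℝ, ‖∑ a ∈ B, ((f a - f' a : ℝ) : ℂ) * ee ((a : ℝ) * α)‖ ≤ ηB) (S : Finset ℤ) :
    ∑ n ∈ S, (cv A B γ β f f n - cv A B γ β f' f' n) ^ 2 ≤
      2 * (ηA ^ 2 * ∑ b ∈ B, f b ^ 2) + 2 * (ηB ^ 2 * ∑ a ∈ A, f' a ^ 2) := by
  have h1 := cv_l2 A B γ β hβ (fun a => f a - f' a) f ηA hA S
  have h2 := cv_l2 B A β γ hγ (fun a => f a - f' a) f' ηB hB S
  have h3 : ∀ n, cv A B γ β f f n - cv A B γ β f' f' n =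
      cv A B γ β (fun a => f a - f' a) f n + cv B A β γ (fun a => f a - f' a) f' n := by
    intro n
    rw [cv_swap B A]
    unfold cv
    simp only [← sum_sub_distrib, ← sum_add_distrib]
    refine sum_congr rfl fun a _ => sum_congr rfl fun b _ => ?_
    split_ifs <;> ring
  calc _ ≤ ∑ n ∈ S, (2 * cv A B γ β (fun a => f a - f' a) f n ^ 2 +
        2 * cv B A β γ (fun a => f a - f' a) f' n ^ 2) := by
        refine sum_le_sum fun n _ => ?_
        rw [h3]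
        nlinarith [sq_nonneg (cv A B γ β (fun a => f a - f' a) f n -
          cv B A β γ (fun a => f a - f' a) f' n)]
    _ ≤ _ := by
        rw [sum_add_distrib, ← mul_sum, ← mul_sum]
        linarith

end Pool.Agent.H861Z.Smooth
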