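import Mathlib
import Pool.Agent.H373R2.T7.SupE2
import Pool.Agent.H373R2.T7.SysCount

/-! The analytic input: primes against the sieve model, in intervals. -/

namespace Pool.Agent.H861Z.Smooth
open Finset
open Pool.Agent.H807R2.Dav Pool.Agent.H373R2.T7

/-- the logarithm on primes -/
noncomputable def th (n : ℕ) : ℝ := if n.Prime then Real.log n else 0

/-- the sifting condition for the pair `y`, `n + β y` -/
def good (z : ℕ) (n β : ℤ) (y : ℕ) : Prop :=
  ∀ p ∈ pz z, ¬ p ∣ y ∧ (p ≠ 2 → ¬ (p : ℤ) ∣ n + β * y)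

noncomputable instance (z : ℕ) (n β : ℤ) : DecidablePred (good z n β) := Classical.decPred _

/-- the density of the sifting condition -/
noncomputable def PP (z : ℕ) : ℝ := ∏ p ∈ pz z, (1 - (if p = 2 then 1 else 2 : ℝ) / p)

structure Ctx (k z : ℕ) (η : ℝ) : Prop where
  four : ∀ s t : ℕ, k ≤ 5 * s → s ≤ t → t ≤ k → ∀ α : ℝ,
    ‖∑ n ∈ Ioc s t, ((th n - lamz z n : ℝ) : ℂ) * ee ((n : ℝ) * α)‖ ≤ η
  cnt : ∀ s t : ℕ, k ≤ 5 * s → s ≤ t → t ≤ k → ∀ n β : ℤ,
    (∀ p : ℕ, p.Prime → p ≠ 2 → ¬ (p : ℤ) ∣ β) → (∀ p ∈ pz z, p ≠ 2 → ¬ (p : ℤ) ∣ n) →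
    |(#((Ioc s t).filter (good z n β)) : ℝ) - (t - s) * PP z| ≤ η
  pnt : ∀ s t : ℕ, s ≤ t → t ≤ 2 * k → |∑ n ∈ Ioc s t, th n - (t - s)| ≤ η
  vinv : (Vz z)⁻¹ ≤ Real.log k
  zlo : 2 ≤ z
  zhi : 5 * z ≤ k

lemma th_nonneg (n : ℕ) : 0 ≤ th n := by
  unfold th
  split_ifs
  · exact Real.log_natCast_nonneg n
  · exact le_rfl

lemma lam_th (y : ℕ) (hy : 1 ≤ y) :
    ∑ n ∈ Icc 1 y, |ArithmeticFunction.vonMangoldt n - th n| ≤ 2 * √y * Real.log y := by
  have h := Chebyshev.psi_sub_theta_le (x := (y : ℝ)) (by exact_mod_cast hy)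
  rw [Chebyshev.psi_sub_theta_eq_sum_not_prime, Nat.floor_natCast, sum_filter] at h
  refine le_trans (le_of_eq ?_) h
  refine sum_congr rfl fun n _ => ?_
  unfold th
  by_cases hn : n.Prime
  · simp [hn, ArithmeticFunction.vonMangoldt_apply_prime hn]
  · simp [hn, abs_of_nonneg ArithmeticFunction.vonMangoldt_nonneg]

lemma sum_Ioc_eq {M : Type} [AddCommGroup M] (f : ℕ → M) (s t : ℕ) (h : s ≤ t) :
    ∑ n ∈ Ioc s t, f n = ∑ n ∈ Icc 1 t, f n - ∑ n ∈ Icc 1 s, f n := by
  have h1 : ∀ y : ℕ, Icc 1 y = Ioc 0 y := fun y => by ext n; simp [Nat.succ_le_iff]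
  rw [h1, h1, ← sum_Ioc_consecutive f (Nat.zero_le s) h, add_sub_cancel_left]

lemma nu_lin (p : ℕ) (hp : p.Prime) (n β : ℤ) (hβ : ¬ (p : ℤ) ∣ β) :
    ∃ r < p, ∀ y < p, ((p : ℤ) ∣ n + β * y ↔ y = r) := by
  haveI := Fact.mk hp
  have hb : (β : ZMod p) ≠ 0 := by rwa [Ne, ZMod.intCast_zmod_eq_zero_iff_dvd]
  refine ⟨(-(n : ZMod p) / β).val, ZMod.val_lt _, fun y hy => ?_⟩
  rw [← ZMod.intCast_zmod_eq_zero_iff_dvd]
  push_cast
  constructor
  · intro h
    have : (-(n : ZMod p) / β) = (y : ZMod p) := by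
      rw [div_eq_iff hb]; linear_combination -h
    rw [this, ZMod.val_cast_of_lt hy]
  · intro h
    rw [h, ZMod.natCast_zmod_val]
    field_simp
    ring

open Classical in
lemma nu_eq (n β : ℤ) (hβ : ∀ p : ℕ, p.Prime → p ≠ 2 → ¬ (p : ℤ) ∣ β) (p : ℕ) (hp : p.Prime) :
    nuB (fun p y => p ∣ y ∨ (p ≠ 2 ∧ (p : ℤ) ∣ n + β * y)) p ≤ 2 ∧
      ((p ≠ 2 → ¬ (p : ℤ) ∣ n) →
        (nuB (fun p y => p ∣ y ∨ (p ≠ 2 ∧ (p : ℤ) ∣ n + β * y)) p : ℝ) = if p = 2 then 1 else 2) := by
  by_cases h2 : p = 2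
  · have : nuB (fun p y => p ∣ y ∨ (p ≠ 2 ∧ (p : ℤ) ∣ n + β * y)) p = 1 := by
      unfold nuB
      rw [card_eq_one]
      refine ⟨0, ?_⟩
      ext y
      subst h2
      simp only [mem_filter, mem_range, mem_singleton, ne_eq, not_true_eq_false, false_and, or_false]
      omega
    rw [this, if_pos h2]
    simp
  · obtain ⟨r, hr, h⟩ := nu_lin p hp n β (hβ p hp h2)
    have e : nuB (fun p y => p ∣ y ∨ (p ≠ 2 ∧ (p : ℤ) ∣ n + β * y)) p = #({0, r} : Finset ℕ) := by
      unfold nuB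
      congr 1
      ext y
      simp only [mem_filter, mem_range, mem_insert, mem_singleton]
      constructor
      · rintro ⟨hy, h1 | h1⟩
        · exact Or.inl (Nat.eq_zero_of_dvd_of_lt h1 hy)
        · exact Or.inr ((h y hy).1 h1.2)
      · rintro (rfl | rfl)
        · exact ⟨hp.pos, Or.inl (dvd_zero _)⟩
        · exact ⟨hr, Or.inr ⟨h2, (h y hr).2 rfl⟩⟩
    rw [e]
    refine ⟨card_le_two, fun hn => ?_⟩
    rw [if_neg h2, card_pair]
    · norm_num
    · intro h0
      have := (h 0 hp.pos).2 h0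
      exact hn h2 (by simpa using this)

theorem ctx_exists : ∃ K : ℕ, ∀ k : ℕ, K ≤ k → ∃ z : ℕ, Ctx k z (k / Real.log k ^ 3) := by
  classical
  obtain ⟨B, hB⟩ := sup_diff 4
  obtain ⟨N1, h1⟩ := hB (2 * B + 4)
  obtain ⟨N2, h2⟩ := sys_count 2 (2 * B + 4) 4 (by norm_num)
  obtain ⟨N3, h3⟩ := lam_ap 0 4
  obtain ⟨N4, h4⟩ := Vz_inv_small (2 * B + 4)
  obtain ⟨N5, h5⟩ := ev_log' 4 100
  obtain ⟨N6, h6⟩ := ev_log' (B + 2) 1
  obtain ⟨N7, h7⟩ := ev_L' 100
  refine ⟨5 * (N1 + N2 + N3 + N4 + N5 + N6 + N7 + 25), fun k hk => ?_⟩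
  set L := Real.log k with hL
  have hL1 : 100 ≤ L := h7 k (by omega)
  have hL0 : 0 < L := by linarith
  have hk0 : (0 : ℝ) < k := by exact_mod_cast (show 0 < k by omega)
  have hk25 : (125 : ℝ) ≤ k := by exact_mod_cast (show 125 ≤ k by omega)
  have a5 := h5 k (by omega)
  have a6 := h6 k (by omega)
  rw [← hL] at a5 a6
  set z := ⌈L ^ (B + 1)⌉₊ with hz
  have z1 : L ^ (B + 1) ≤ z := Nat.le_ceil _
  have hpw : ∀ a b : ℕ, a ≤ b → L ^ a ≤ L ^ b := fun a b h => pow_le_pow_right₀ (by linarith) h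
  have z2 : (z : ℝ) ≤ L ^ (B + 2) := by
    have := (Nat.ceil_lt_add_one (show 0 ≤ L ^ (B + 1) by positivity)).le
    have h := hpw 0 (B + 1) (by omega)
    rw [pow_zero] at h
    rw [pow_succ L (B + 1)]
    nlinarith
  have z3 : (2 : ℝ) ≤ z := by
    have h := hpw 1 (B + 1) (by omega)
    rw [pow_one] at h
    linarith
  have zz : 2 ≤ z := by exact_mod_cast z3
  have hsq : √(k : ℝ) * √(k : ℝ) = k := Real.mul_self_sqrt hk0.le
  have hsq0 : 0 ≤ √(k : ℝ) := Real.sqrt_nonneg _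
  have hlog5 : Real.log 5 ≤ 2 := by
    rw [Real.log_le_iff_le_exp (by norm_num)]
    have := Real.add_one_le_exp (1 : ℝ)
    have h2 : Real.exp 2 = Real.exp 1 * Real.exp 1 := by rw [← Real.exp_add]; norm_num
    have := Real.exp_one_gt_d9
    nlinarith
  -- logarithms of numbers of the same size
  have hN : ∀ N : ℕ, k ≤ 5 * N → N ≤ k → L / 2 ≤ Real.log N ∧ Real.log N ≤ L := by
    intro N hN1 hN2
    have hN0 : (0 : ℝ) < N := by exact_mod_cast (show 0 < N by omega)
    constructor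
    · have : L ≤ Real.log (5 * N) := Real.log_le_log hk0 (by exact_mod_cast hN1)
      rw [Real.log_mul (by norm_num) hN0.ne'] at this
      linarith
    · exact Real.log_le_log hN0 (by exact_mod_cast hN2)
  have hzE : ∀ N : ℕ, k ≤ 5 * N → N ≤ k → (z : ℝ) ≤ Real.log N ^ (2 * B + 4) := by
    intro N hN1 hN2
    have h := (hN N hN1 hN2).1
    calc (z : ℝ) ≤ L ^ (B + 2) := z2
      _ ≤ ((L / 2) ^ 2) ^ (B + 2) := pow_le_pow_left₀ hL0.le (by nlinarith) _
      _ = (L / 2) ^ (2 * B + 4) := by rw [← pow_mul]; ring_nf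
      _ ≤ _ := pow_le_pow_left₀ (by linarith) h _
  have herr : ∀ N : ℕ, k ≤ 5 * N → N ≤ k → (N : ℝ) / Real.log N ^ 4 ≤ k / L ^ 3 / 4 := by
    intro N hN1 hN2
    have h := (hN N hN1 hN2).1
    have h' : (L / 2) ^ 4 ≤ Real.log N ^ 4 := pow_le_pow_left₀ (by linarith) h _
    have hN2' : (N : ℝ) ≤ k := by exact_mod_cast hN2
    calc (N : ℝ) / Real.log N ^ 4 ≤ k / (L / 2) ^ 4 := by gcongr
      _ = k / L ^ 3 * (16 / L) := by field_simp; ring
      _ ≤ k / L ^ 3 * (1 / 4) := by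
        refine mul_le_mul_of_nonneg_left ?_ (by positivity)
        rw [div_le_div_iff₀ hL0 (by norm_num)]
        linarith
      _ = _ := by ring
  have hsm : √(k : ℝ) * L * 100 ≤ k / L ^ 3 := by
    rw [le_div_iff₀ (by positivity)]
    nlinarith
  have hth : ∀ N : ℕ, N ≤ 2 * k →
      ∑ n ∈ Icc 1 N, |ArithmeticFunction.vonMangoldt n - th n| ≤ k / L ^ 3 / 4 := by
    intro N hN2
    have hk1 : 1 ≤ 2 * k := by omega
    have h := lam_th (2 * k) hk1
    have h' : ∑ n ∈ Icc 1 N, |ArithmeticFunction.vonMangoldt n - th n| ≤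
        ∑ n ∈ Icc 1 (2 * k), |ArithmeticFunction.vonMangoldt n - th n| :=
      sum_le_sum_of_subset_of_nonneg (Icc_subset_Icc_right hN2) fun _ _ _ => abs_nonneg _
    have e1 : √((2 * k : ℕ) : ℝ) ≤ 2 * √(k : ℝ) := by
      rw [Real.sqrt_le_left (by positivity)]
      push_cast
      nlinarith
    have e2 : Real.log ((2 * k : ℕ) : ℝ) ≤ 2 * L := by
      push_cast
      rw [Real.log_mul (by norm_num) hk0.ne']
      have := Real.log_two_lt_d9
      linarith
    have e3 : 2 * √((2 * k : ℕ) : ℝ) * Real.log ((2 * k : ℕ) : ℝ) ≤ 2 * (2 * √(k : ℝ)) * (2 * L) := by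
      gcongr
    have : 0 ≤ √(k : ℝ) * L := by positivity
    linarith
  refine ⟨z, ?_, ?_, ?_, ?_, zz, ?_⟩
  · intro s t hs hst ht α
    have key : ∀ N : ℕ, k ≤ 5 * N → N ≤ k →
        ‖∑ n ∈ Icc 1 N, ((th n - lamz z n : ℝ) : ℂ) * ee ((n : ℝ) * α)‖ ≤ k / L ^ 3 / 2 := by
      intro N hN1 hN2
      have b1 := h1 N (by omega) z (((pow_le_pow_left₀ (by linarith [(hN N hN1 hN2).1])
        (hN N hN1 hN2).2 B).trans (hpw _ _ (Nat.le_succ B))).trans z1) (hzE N hN1 hN2) α
      have b2 : ‖∑ n ∈ Icc 1 N, ((ArithmeticFunction.vonMangoldt n - th n : ℝ) : ℂ) *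
          ee ((n : ℝ) * α)‖ ≤ k / L ^ 3 / 4 := by
        refine (norm_sum_le _ _).trans (le_trans (le_of_eq ?_) (hth N (by omega)))
        refine sum_congr rfl fun n _ => ?_
        rw [norm_mul, norm_ee, mul_one, Complex.norm_real, Real.norm_eq_abs]
      have b3 : ∑ n ∈ Icc 1 N, ((th n - lamz z n : ℝ) : ℂ) * ee ((n : ℝ) * α) =
          ∑ n ∈ Icc 1 N, ((ArithmeticFunction.vonMangoldt n - lamz z n : ℝ) : ℂ) * ee ((n : ℝ) * α) -
          ∑ n ∈ Icc 1 N, ((ArithmeticFunction.vonMangoldt n - th n : ℝ) : ℂ) * ee ((n : ℝ) * α) := by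
        rw [← sum_sub_distrib]
        refine sum_congr rfl fun n _ => ?_
        push_cast
        ring
      rw [b3]
      have := herr N hN1 hN2
      exact (norm_sub_le _ _).trans (by linarith)
    rw [sum_Ioc_eq _ s t hst]
    have := key t (by omega) ht
    have := key s hs (by omega)
    exact (norm_sub_le _ _).trans (by linarith)
  · intro s t hs hst ht n β hβ hn
    set Q : ℕ → ℕ → Prop := fun p y => p ∣ y ∨ (p ≠ 2 ∧ (p : ℤ) ∣ n + β * y) with hQ
    have hper : PerB Q 2 := by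
      refine ⟨fun p y => ?_, fun p hp => (nu_eq n β hβ p hp).1⟩
      have e1 : p ∣ y ↔ p ∣ y % p := (Nat.dvd_mod_iff dvd_rfl).symm
      have e2 : (p : ℤ) ∣ n + β * y ↔ (p : ℤ) ∣ n + β * ((y % p : ℕ) : ℤ) := by
        apply dvd_iff_dvd_of_dvd_sub
        have : (y : ℤ) = p * (y / p : ℕ) + (y % p : ℕ) := by exact_mod_cast (Nat.div_add_mod y p).symm
        exact ⟨β * (y / p : ℕ), by linear_combination β * this⟩
      simp only [hQ]
      rw [e1, e2]
    have hP : ∏ p ∈ pz z, (1 - (nuB Q p : ℝ) / p) = PP z :=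
      prod_congr rfl fun p hp => by rw [(nu_eq n β hβ p (mem_pz.1 hp).2).2 (hn p hp)]
    have key : ∀ N : ℕ, k ≤ 5 * N → N ≤ k →
        |∑ y ∈ Icc 1 N, (if good z n β y then (1 : ℝ) else 0) - N * PP z| ≤ k / L ^ 3 / 4 := by
      intro N hN1 hN2
      have b1 := h2 N (by omega) z (by omega) (hzE N hN1 hN2) Q hper
      rw [hP] at b1
      refine le_trans (le_of_eq ?_) (b1.trans (herr N hN1 hN2))
      rw [sum_boole]
      congr 4
      ext y
      simp only [good, hQ, not_or, not_and]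
    have e : (#((Ioc s t).filter (good z n β)) : ℝ) =
        ∑ y ∈ Ioc s t, (if good z n β y then (1 : ℝ) else 0) := by rw [sum_boole]
    rw [e, sum_Ioc_eq _ s t hst]
    have k1 := abs_le.1 (key t (by omega) ht)
    have k2 := abs_le.1 (key s hs (by omega))
    have : 0 ≤ k / L ^ 3 := by positivity
    rw [abs_le]
    constructor <;> linarith [k1.1, k1.2, k2.1, k2.2]
  · intro s t hst ht
    have key : ∀ y : ℕ, y ≤ 2 * k → |∑ n ∈ Icc 1 y, th n - y| ≤ k / L ^ 3 / 2 := by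
      intro y hy
      have b1 := h3 (2 * k) (by omega) 1 le_rfl (by simp) 0 y hy
      have e : (Icc 1 y).filter (fun n => n ≡ 0 [MOD 1]) = Icc 1 y :=
        filter_true_of_mem fun n _ => Nat.modEq_one
      rw [e] at b1
      simp only [Nat.coprime_one_right_eq_true, if_true, Nat.totient_one, Nat.cast_one, div_one] at b1
      have b2 := (abs_sum_le_sum_abs _ _).trans (hth y hy)
      rw [sum_sub_distrib] at b2
      have b3 : ((2 * k : ℕ) : ℝ) / Real.log ((2 * k : ℕ) : ℝ) ^ 4 ≤ k / L ^ 3 / 4 := by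
        have : L ≤ Real.log ((2 * k : ℕ) : ℝ) :=
          Real.log_le_log hk0 (by exact_mod_cast (show k ≤ 2 * k by omega))
        calc _ ≤ ((2 * k : ℕ) : ℝ) / L ^ 4 := by gcongr
          _ = k / L ^ 3 * (2 / L) := by push_cast; field_simp
          _ ≤ k / L ^ 3 * (1 / 4) := by
            refine mul_le_mul_of_nonneg_left ?_ (by positivity)
            rw [div_le_div_iff₀ hL0 (by norm_num)]
            linarith
          _ = _ := by ring
      have k1 := abs_le.1 b1
      have k2 := abs_le.1 b2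
      rw [abs_le]
      constructor <;> linarith [k1.1, k1.2, k2.1, k2.2]
    rw [sum_Ioc_eq _ s t hst]
    have k1 := abs_le.1 (key t ht)
    have k2 := abs_le.1 (key s (by omega))
    rw [abs_le]
    constructor <;> linarith [k1.1, k1.2, k2.1, k2.2]
  · exact h4 k (by omega) z (by omega) (hzE k (by omega) le_rfl)
  · have : (5 : ℝ) * z ≤ k := by
      have : 5 ≤ √(k : ℝ) := by
        rw [Real.le_sqrt (by norm_num) hk0.le]; linarith
      nlinarith
    exact_mod_cast this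

lemma sing_ge (z : ℕ) (hz : 2 ≤ z) : 1 ≤ PP z * (Vz z)⁻¹ ^ 2 := by
  have key : (z : ℝ) / (z - 1) * Vz z ^ 2 ≤ PP z := by
    induction z, hz using Nat.le_induction with
    | base =>
      have : pz 2 = {2} := by
        ext p
        rw [mem_pz, mem_singleton]
        constructor
        · rintro ⟨h1, h2⟩
          have := h2.two_le
          omega
        · rintro rfl
          exact ⟨le_rfl, Nat.prime_two⟩
      unfold Vz PP
      rw [this]
      norm_num
    | succ z hz ih =>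
      have hz2 : (2 : ℝ) ≤ z := by exact_mod_cast hz
      have hV := Vz_pos z
      by_cases hp : (z + 1).Prime
      · have h1 : pz (z + 1) = insert (z + 1) (pz z) := by
          ext p
          rw [mem_insert, mem_pz, mem_pz]
          constructor
          · rintro ⟨h1, h2⟩
            rcases Nat.lt_or_ge p (z + 1) with h | h
            · exact Or.inr ⟨by omega, h2⟩
            · exact Or.inl (by omega)
          · rintro (h | ⟨h1, h2⟩)
            · exact ⟨h.le, h ▸ hp⟩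
            · exact ⟨by omega, h2⟩
        have h2 : z + 1 ∉ pz z := fun h => by have := (mem_pz.1 h).1; omega
        have e1 : Vz (z + 1) = (1 - 1 / ((z : ℝ) + 1)) * Vz z := by
          unfold Vz; rw [h1, prod_insert h2]; push_cast; rfl
        have e2 : PP (z + 1) = (1 - 2 / ((z : ℝ) + 1)) * PP z := by
          unfold PP; rw [h1, prod_insert h2, if_neg (by omega)]; push_cast; rfl
        rw [e1, e2]
        push_cast
        have h3 : 0 ≤ 1 - 2 / ((z : ℝ) + 1) := by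
          rw [sub_nonneg, div_le_one (by linarith)]; linarith
        refine le_trans (le_of_eq ?_) (mul_le_mul_of_nonneg_left ih h3)
        have : (z : ℝ) - 1 ≠ 0 := by linarith
        have : (z : ℝ) ≠ 0 := by linarith
        rw [add_sub_cancel_right]
        field_simp
        ring
      · have h1 : pz (z + 1) = pz z := by
          ext p
          rw [mem_pz, mem_pz]
          constructor
          · rintro ⟨h1, h2⟩
            rcases Nat.lt_or_ge p (z + 1) with h | h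
            · exact ⟨by omega, h2⟩
            · exact absurd ((show p = z + 1 by omega) ▸ h2) hp
          · rintro ⟨h1, h2⟩
            exact ⟨by omega, h2⟩
        have e1 : Vz (z + 1) = Vz z := by unfold Vz; rw [h1]
        have e2 : PP (z + 1) = PP z := by unfold PP; rw [h1]
        rw [e1, e2]
        refine le_trans (mul_le_mul_of_nonneg_right ?_ (by positivity)) ih
        push_cast
        rw [add_sub_cancel_right, div_le_div_iff₀ (by linarith) (by linarith)]
        nlinarith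
  have hV := Vz_pos z
  have hz2 : (2 : ℝ) ≤ z := by exact_mod_cast hz
  have h1 : 1 ≤ (z : ℝ) / (z - 1) := by rw [le_div_iff₀ (by linarith)]; linarith
  rw [inv_pow, ← div_eq_mul_inv, le_div_iff₀ (by positivity)]
  nlinarith [sq_nonneg (Vz z)]

end Pool.Agent.H861Z.Smooth
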