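import Mathlib
import Pool.Agent.H861Z.Smooth.Conv
import Pool.Agent.H861Z.Smooth.Ctx

/-! Degrees in the graph of prime pairs with a prime linear form. -/

set_option maxHeartbeats 400000

namespace Pool.Agent.H861Z.Smooth
open Finset
open Pool.Agent.H807R2.Dav Pool.Agent.H373R2.T7

/-- sets on which the primes follow the sieve model -/
structure Nice (k z : ℕ) (μ l : ℝ) (A : Finset ℕ) : Prop where
  sub : ∀ a ∈ A, k < 5 * a ∧ a ≤ k
  four : ∀ α : ℝ, ‖∑ n ∈ A, ((th n - lamz z n : ℝ) : ℂ) * ee ((n : ℝ) * α)‖ ≤ μ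
  cnt : ∀ n β : ℤ, (∀ p : ℕ, p.Prime → p ≠ 2 → ¬ (p : ℤ) ∣ β) →
    (∀ p ∈ pz z, p ≠ 2 → ¬ (p : ℤ) ∣ n) → |(#(A.filter (good z n β)) : ℝ) - l * PP z| ≤ μ
  pnt : |∑ n ∈ A, th n - l| ≤ μ

lemma log_five : Real.log 5 ≤ 2 := by
  rw [Real.log_le_iff_le_exp (by norm_num)]
  have h2 : Real.exp 2 = Real.exp 1 * Real.exp 1 := by rw [← Real.exp_add]; norm_num
  have := Real.exp_one_gt_d9
  nlinarith

lemma log_mid {k a : ℕ} (h1 : k < 5 * a) (h2 : a ≤ k) :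
    Real.log k - 2 ≤ Real.log a ∧ Real.log a ≤ Real.log k := by
  have ha : (0 : ℝ) < a := by exact_mod_cast (show 0 < a by omega)
  have hk : (0 : ℝ) < k := by exact_mod_cast (show 0 < k by omega)
  refine ⟨?_, Real.log_le_log ha (by exact_mod_cast h2)⟩
  have : Real.log k ≤ Real.log (5 * a) := Real.log_le_log hk (by exact_mod_cast h1.le)
  rw [Real.log_mul (by norm_num) ha.ne'] at this
  linarith [log_five]

lemma dvd_four {α : ℤ} (h : α ∣ 4) : ∀ p : ℕ, p.Prime → p ≠ 2 → ¬ (p : ℤ) ∣ α := by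
  intro p hp h2 hd
  have h4 : p ∣ 2 ^ 2 := by exact_mod_cast hd.trans h
  exact h2 ((Nat.prime_dvd_prime_iff_eq hp Nat.prime_two).1 (hp.dvd_of_dvd_pow h4))

lemma ne_zero_four {α : ℤ} (h : α ∣ 4) : α ≠ 0 := by
  rintro rfl
  norm_num at h

lemma card_le_k {k : ℕ} {A : Finset ℕ} (h : ∀ a ∈ A, k < 5 * a ∧ a ≤ k) : (#A : ℝ) ≤ k := by
  have : A ⊆ Icc 1 k := fun a ha => mem_Icc.2 ⟨by have := (h a ha).1; omega, (h a ha).2⟩
  have := card_le_card this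
  rw [Nat.card_Icc] at this
  exact_mod_cast (by omega : #A ≤ k)

lemma th_le {k a : ℕ} (h1 : k < 5 * a) (h2 : a ≤ k) : th a ≤ Real.log k := by
  unfold th
  split_ifs
  · exact (log_mid h1 h2).2
  · exact Real.log_natCast_nonneg k

lemma lamz_le' (z n : ℕ) : lamz z n ≤ (Vz z)⁻¹ := by
  unfold lamz
  split_ifs
  · exact le_rfl
  · exact (inv_pos.2 (Vz_pos z)).le

lemma sum_sq_le {k : ℕ} {A : Finset ℕ} (h : ∀ a ∈ A, k < 5 * a ∧ a ≤ k) (f : ℕ → ℝ) (L : ℝ)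
    (hf : ∀ a ∈ A, 0 ≤ f a ∧ f a ≤ L) : ∑ a ∈ A, f a ^ 2 ≤ k * L ^ 2 := by
  have h1 : ∑ a ∈ A, f a ^ 2 ≤ ∑ _a ∈ A, L ^ 2 :=
    sum_le_sum fun a ha => pow_le_pow_left₀ (hf a ha).1 (hf a ha).2 2
  rw [sum_const, nsmul_eq_mul] at h1
  exact h1.trans (mul_le_mul_of_nonneg_right (card_le_k h) (by positivity))

lemma cv_nice {k z : ℕ} {μ l l' : ℝ} {A B : Finset ℕ} (hV : (Vz z)⁻¹ ≤ Real.log k)
    (hA : Nice k z μ l A) (hB : Nice k z μ l' B) (γ β : ℤ) (hγ : γ ≠ 0) (hβ : β ≠ 0)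
    (S : Finset ℤ) :
    ∑ n ∈ S, (cv A B γ β th th n - cv A B γ β (lamz z) (lamz z) n) ^ 2 ≤
      4 * (μ ^ 2 * k * Real.log k ^ 2) := by
  have h := cv_diff A B γ β hγ hβ th (lamz z) μ μ hA.four hB.four S
  have h1 := sum_sq_le hB.sub th (Real.log k) fun a ha =>
    ⟨th_nonneg a, th_le (hB.sub a ha).1 (hB.sub a ha).2⟩
  have h2 := sum_sq_le hA.sub (lamz z) (Real.log k) fun a _ =>
    ⟨lamz_nonneg z a, (lamz_le' z a).trans hV⟩
  have h3 := mul_le_mul_of_nonneg_left h1 (sq_nonneg μ)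
  have h4 := mul_le_mul_of_nonneg_left h2 (sq_nonneg μ)
  linarith

lemma cv_eval (A Z : Finset ℕ) (β n : ℤ) (f : ℕ → ℝ)
    (h : ∀ y ∈ A, ∃ w ∈ Z, (w : ℤ) = n + β * y) :
    cv A Z (-β) 1 f f n = ∑ y ∈ A, f y * f (n + β * y).toNat := by
  refine sum_congr rfl fun y hy => ?_
  obtain ⟨w, hw, e⟩ := h y hy
  rw [← e, Int.toNat_natCast, sum_eq_single w]
  · rw [if_pos (by rw [e]; ring)]
  · intro b _ hb
    rw [if_neg]
    intro h1
    apply hb
    have : (b : ℤ) = w := by rw [e]; linear_combination h1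
    exact_mod_cast this
  · intro h1; exact absurd hw h1

lemma th_mul {k a b : ℕ} (hL : 2 ≤ Real.log k) (ha : k < 5 * a ∧ a ≤ k) (hb : k < 5 * b ∧ b ≤ k) :
    (Real.log k - 2) ^ 2 * (if a.Prime ∧ b.Prime then 1 else 0) ≤ th a * th b ∧
      th a * th b ≤ Real.log k ^ 2 * (if a.Prime ∧ b.Prime then 1 else 0) := by
  have h1 := log_mid ha.1 ha.2
  have h2 := log_mid hb.1 hb.2
  unfold th
  by_cases h3 : a.Prime
  · by_cases h4 : b.Prime
    · rw [if_pos h3, if_pos h4, if_pos ⟨h3, h4⟩, mul_one, mul_one, sq, sq]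
      exact ⟨mul_le_mul h1.1 h2.1 (by linarith) (by linarith [h1.1]),
        mul_le_mul h1.2 h2.2 (by linarith [h2.1]) (by linarith)⟩
    · simp [h4]
  · simp [h3]

lemma lamz_mul {z : ℕ} (hz : 2 ≤ z) {n β : ℤ} {y w : ℕ} (e : (w : ℤ) = n + β * y)
    (hpar : ¬ 2 ∣ y → ¬ (2 : ℤ) ∣ n + β * y) :
    lamz z y * lamz z w = (Vz z)⁻¹ ^ 2 * (if good z n β y then 1 else 0) := by
  have h2 : 2 ∈ pz z := mem_pz.2 ⟨hz, Nat.prime_two⟩
  unfold lamz
  by_cases hg : good z n β y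
  · rw [if_pos hg, if_pos (fun p hp => (hg p hp).1), if_pos, sq, mul_one]
    intro p hp hd
    have hd' : (p : ℤ) ∣ n + β * y := by rw [← e]; exact_mod_cast hd
    by_cases hp2 : p = 2
    · subst hp2
      exact hpar (hg 2 h2).1 hd'
    · exact (hg p hp).2 hp2 hd'
  · rw [if_neg hg, mul_zero]
    split_ifs with h3 h4
    · exfalso
      refine hg fun p hp => ⟨h3 p hp, fun _ hd => h4 p hp ?_⟩
      rw [← e] at hd
      exact_mod_cast hd
    all_goals simp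

lemma real_deg {L G W d R : ℝ} (hL : 1000000 ≤ L) (hG : 0 < G) (hd : 0 ≤ d)
    (h1 : (L - 2) ^ 2 * d ≤ W) (h2 : W ≤ L ^ 2 * d) (hR : R = 10000) :
    (R * L ^ 2 / G * d - R) ^ 2 + R * L ^ 2 / G * d ≤
      16 * R ^ 2 * ((W - G) ^ 2 / G ^ 2) + (R + 2) := by
  have hW : 0 ≤ W := le_trans (by positivity) h1
  have h3 : L ^ 2 * d ≤ (1 + 1 / 100000) * W := by
    have : L ^ 2 ≤ (1 + 1 / 100000) * (L - 2) ^ 2 := by nlinarith
    nlinarith
  set a := W / G with ha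
  set b := L ^ 2 * d / G with hb
  have e1 : R * L ^ 2 / G * d = R * b := by rw [hb]; ring
  have e2 : (W - G) ^ 2 / G ^ 2 = (a - 1) ^ 2 := by rw [ha]; field_simp
  have h4 : a ≤ b := div_le_div_of_nonneg_right h2 hG.le
  have h5 : b ≤ (1 + 1 / 100000) * a := by
    rw [ha, ← mul_div_assoc]; exact div_le_div_of_nonneg_right h3 hG.le
  have h6 : 0 ≤ a := by positivity
  rw [e1, e2, hR]
  have h7 : (b - 1) ^ 2 ≤ 8 * (a - 1) ^ 2 + 2 * (1 / 100000) ^ 2 := by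
    have h8 : |b - 1| ≤ 2 * |a - 1| + 1 / 100000 := by
      rw [abs_le]
      constructor <;> linarith [le_abs_self (a - 1), neg_abs_le (a - 1), abs_nonneg (a - 1)]
    have h9 := pow_le_pow_left₀ (abs_nonneg _) h8 2
    rw [sq_abs] at h9
    nlinarith [sq_abs (a - 1), sq_nonneg (2 * |a - 1| - 1 / 100000)]
  nlinarith [sq_nonneg (10000 * (b - 1) - 1)]

lemma nice_card {k z : ℕ} {μ l : ℝ} {A : Finset ℕ} (hA : Nice k z μ l A)
    (hL : 1000000 ≤ Real.log k) (hμ : 10000 * μ ≤ l) :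
    999 / 1000 * (l / Real.log k) ≤ #(A.filter Nat.Prime) ∧
      (#(A.filter Nat.Prime) : ℝ) ≤ 1001 / 1000 * (l / Real.log k) := by
  set L := Real.log k with hLd
  have hL0 : 0 < L := by linarith
  have h0 : 0 ≤ μ := (abs_nonneg _).trans hA.pnt
  have e : (#(A.filter Nat.Prime) : ℝ) = ∑ a ∈ A, if a.Prime then (1 : ℝ) else 0 := by
    rw [sum_boole]
  have h1 : (L - 2) * #(A.filter Nat.Prime) ≤ ∑ a ∈ A, th a := by
    rw [e, mul_sum]
    refine sum_le_sum fun a ha => ?_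
    unfold th
    split_ifs
    · rw [mul_one]; exact (log_mid (hA.sub a ha).1 (hA.sub a ha).2).1
    · simp
  have h2 : ∑ a ∈ A, th a ≤ L * #(A.filter Nat.Prime) := by
    rw [e, mul_sum]
    refine sum_le_sum fun a ha => ?_
    unfold th
    split_ifs
    · rw [mul_one]; exact (log_mid (hA.sub a ha).1 (hA.sub a ha).2).2
    · simp
  obtain ⟨h3, h4⟩ := abs_le.1 hA.pnt
  have h5 : (0 : ℝ) ≤ #(A.filter Nat.Prime) := Nat.cast_nonneg _
  rw [← mul_div_assoc, ← mul_div_assoc, div_le_iff₀ hL0, le_div_iff₀ hL0]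
  constructor <;> nlinarith

theorem deg_l2 {k z : ℕ} {μ l l' : ℝ} {A Z : Finset ℕ} (hz : 2 ≤ z) (hzk : 5 * z ≤ k)
    (hV : (Vz z)⁻¹ ≤ Real.log k) (hL : 1000000 ≤ Real.log k) (hl : 0 < l)
    (hA : Nice k z μ l A) (hZ : Nice k z μ l' Z) (α β : ℤ) (hα : α ∣ 4) (hβ : β ∣ 4)
    (hpar : Odd (α + β)) (X : Finset ℕ) (hX : ∀ x ∈ X, x.Prime ∧ k < 5 * x ∧ x ≤ k)
    (hw : ∀ x ∈ X, ∀ y ∈ A, ∃ w ∈ Z, (w : ℤ) = α * x + β * y)
    (hX2 : (#X : ℝ) ≤ 1001 / 1000 * (l / Real.log k))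
    (hn : 10 ^ 11 * (μ ^ 2 * k * Real.log k ^ 5) ≤ l ^ 3) (R p : ℝ) (hR : R = 10000)
    (hp : p = R * Real.log k ^ 2 / (l * (PP z * (Vz z)⁻¹ ^ 2))) :
    ∑ x ∈ X, ((p * #(A.filter (fun y : ℕ => y.Prime ∧ (α * x + β * y).toNat.Prime)) - R) ^ 2 +
      p * #(A.filter (fun y : ℕ => y.Prime ∧ (α * x + β * y).toNat.Prime))) ≤
      10015 * (l / Real.log k) := by
  classical
  set L := Real.log k with hLd
  set G := l * (PP z * (Vz z)⁻¹ ^ 2) with hG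
  have hL0 : 0 < L := by linarith
  have hS := sing_ge z hz
  have hGl : l ≤ G := le_mul_of_one_le_right hl.le hS
  have hG0 : 0 < G := by linarith
  have hμ : 0 ≤ μ := (abs_nonneg _).trans hA.pnt
  have hVi : 0 < (Vz z)⁻¹ := inv_pos.2 (Vz_pos z)
  set W : ℕ → ℝ := fun x => cv A Z (-β) 1 th th (α * x) with hW
  set W' : ℕ → ℝ := fun x => cv A Z (-β) 1 (lamz z) (lamz z) (α * x) with hW'
  have h1 : ∑ x ∈ X, (W x - W' x) ^ 2 ≤ 4 * (μ ^ 2 * k * L ^ 2) := by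
    have := cv_nice hV hA hZ (-β) 1 (neg_ne_zero.2 (ne_zero_four hβ)) one_ne_zero
      (X.image fun x : ℕ => α * (x : ℤ))
    rwa [sum_image (fun a _ b _ h => by exact_mod_cast mul_left_cancel₀ (ne_zero_four hα) h)] at this
  have h2 : ∀ x ∈ X, |W' x - G| ≤ μ * L ^ 2 := by
    intro x hx
    obtain ⟨hx1, hx2, hx3⟩ := hX x hx
    have hodd : ¬ 2 ∣ x := fun h => by
      have := (Nat.prime_dvd_prime_iff_eq Nat.prime_two hx1).1 h
      omega
    have e : W' x = (Vz z)⁻¹ ^ 2 * #(A.filter (good z (α * x) β)) := by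
      simp only [hW']
      rw [cv_eval A Z β _ _ (hw x hx), ← sum_boole, mul_sum]
      refine sum_congr rfl fun y hy => ?_
      obtain ⟨w, -, e⟩ := hw x hx y hy
      rw [← e, Int.toNat_natCast]
      refine lamz_mul hz e fun hy2 hd => ?_
      obtain ⟨a, ha⟩ : ∃ a : ℕ, x = 2 * a + 1 := ⟨x / 2, by omega⟩
      obtain ⟨b, hb⟩ : ∃ b : ℕ, y = 2 * b + 1 := ⟨y / 2, by omega⟩
      obtain ⟨c, hc⟩ := hpar
      have : α * x + β * y = 2 * (α * a + β * b + c) + 1 := by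
        rw [ha, hb]; push_cast; linear_combination hc
      rw [this] at hd
      omega
    have h3 := hA.cnt (α * x) β (dvd_four hβ) fun q hq hq2 hd => by
      have hq' := mem_pz.1 hq
      rcases (Nat.prime_iff_prime_int.1 hq'.2).dvd_or_dvd hd with h | h
      · exact dvd_four hα q hq'.2 hq2 h
      · have := (Nat.prime_dvd_prime_iff_eq hq'.2 hx1).1 (by exact_mod_cast h)
        omega
    have e2 : W' x - G = (Vz z)⁻¹ ^ 2 * (#(A.filter (good z (α * x) β)) - l * PP z) := by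
      rw [e, hG]; ring
    rw [e2, abs_mul, abs_of_nonneg (by positivity), mul_comm]
    exact mul_le_mul h3 (pow_le_pow_left₀ hVi.le hV 2) (by positivity) hμ
  have hXk : (#X : ℝ) ≤ k := card_le_k fun a ha => (hX a ha).2
  have h3 : ∑ x ∈ X, (W x - G) ^ 2 ≤ 10 * (μ ^ 2 * k * L ^ 4) := by
    have a1 : ∑ x ∈ X, (W x - G) ^ 2 ≤ ∑ x ∈ X, (2 * (W x - W' x) ^ 2 + 2 * (μ * L ^ 2) ^ 2) := by
      refine sum_le_sum fun x hx => ?_
      have := pow_le_pow_left₀ (abs_nonneg _) (h2 x hx) 2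
      rw [sq_abs] at this
      nlinarith [sq_nonneg ((W x - W' x) - (W' x - G))]
    rw [sum_add_distrib, ← mul_sum, sum_const, nsmul_eq_mul] at a1
    have a2 : (#X : ℝ) * (2 * (μ * L ^ 2) ^ 2) ≤ k * (2 * (μ * L ^ 2) ^ 2) := by gcongr
    have a3 : μ ^ 2 * k * L ^ 2 ≤ μ ^ 2 * k * L ^ 4 := by
      have : L ^ 2 ≤ L ^ 4 := pow_le_pow_right₀ (by linarith) (by norm_num)
      gcongr
    nlinarith
  have h4 : ∀ x ∈ X, (p * #(A.filter (fun y : ℕ => y.Prime ∧ (α * x + β * y).toNat.Prime)) - R) ^ 2 +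
      p * #(A.filter (fun y : ℕ => y.Prime ∧ (α * x + β * y).toNat.Prime)) ≤
      16 * R ^ 2 * ((W x - G) ^ 2 / G ^ 2) + (R + 2) := by
    intro x hx
    have e : W x = ∑ y ∈ A, th y * th (α * x + β * y).toNat := cv_eval A Z β _ _ (hw x hx)
    have b : ∀ y ∈ A, _ := fun y hy => th_mul (a := y) (b := (α * x + β * y).toNat)
      (by linarith : 2 ≤ Real.log k) (hA.sub y hy) (by
        obtain ⟨w, hw1, e⟩ := hw x hx y hy
        rw [← e, Int.toNat_natCast]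
        exact hZ.sub w hw1)
    rw [hp]
    refine real_deg hL hG0 (Nat.cast_nonneg _) ?_ ?_ hR
    · rw [e, ← sum_boole, mul_sum]
      exact sum_le_sum fun y hy => (b y hy).1
    · rw [e, ← sum_boole, mul_sum]
      exact sum_le_sum fun y hy => (b y hy).2
  refine (sum_le_sum h4).trans ?_
  rw [sum_add_distrib, ← mul_sum, ← sum_div, sum_const, nsmul_eq_mul, hR]
  have h5 : (∑ x ∈ X, (W x - G) ^ 2) / G ^ 2 ≤ (l / L) / 10 ^ 10 := by
    calc _ ≤ 10 * (μ ^ 2 * k * L ^ 4) / l ^ 2 := by gcongr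
      _ ≤ _ := by
        rw [div_div, div_le_div_iff₀ (by positivity) (by positivity)]
        nlinarith
  have : 0 ≤ l / L := by positivity
  nlinarith

end Pool.Agent.H861Z.Smooth
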