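import Mathlib
import Pool.Agent.H861Z.Smooth.Deg
import Pool.Agent.H861Z.Smooth.Comb

/-! Almost perfect matchings between two sets of primes with distinct prime values of a form. -/

set_option maxHeartbeats 400000

namespace Pool.Agent.H861Z.Smooth
open Finset
open Pool.Agent.H807R2.Dav Pool.Agent.H373R2.T7

/-- the value of the form -/
def zf (α β : ℤ) (e : ℕ × ℕ) : ℕ := (α * e.1 + β * e.2).toNat

/-- the edges -/
def edges (A B : Finset ℕ) (α β : ℤ) : Finset (ℕ × ℕ) :=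
  ((A.filter Nat.Prime) ×ˢ (B.filter Nat.Prime)).filter (fun e => (zf α β e).Prime)

lemma mem_edges {A B : Finset ℕ} {α β : ℤ} {e : ℕ × ℕ} : e ∈ edges A B α β ↔
    (e.1 ∈ A ∧ e.1.Prime) ∧ (e.2 ∈ B ∧ e.2.Prime) ∧ (zf α β e).Prime := by
  simp only [edges, mem_filter, mem_product, and_assoc]

lemma model_le {k z : ℕ} {μ H : ℝ} {A B J : Finset ℕ} (hJ : Nice k z μ H J) {α β : ℤ}
    (hα : α ∣ 4) (hβ : β ∣ 4) (w : ℕ) (hw : w.Prime) (hzw : z < w)
    (h : ∀ x ∈ A, ∀ y ∈ B, α * x + β * y = w → y ∈ J) :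
    cv A B α β (lamz z) (lamz z) w ≤ (Vz z)⁻¹ ^ 2 * (H * PP z + μ) := by
  classical
  have hVi : 0 < (Vz z)⁻¹ := inv_pos.2 (Vz_pos z)
  have h1 := hJ.cnt w (-β) (dvd_four (neg_dvd.2 hβ)) fun q hq _ hd => by
    have hq' := mem_pz.1 hq
    have := (Nat.prime_dvd_prime_iff_eq hq'.2 hw).1 (by exact_mod_cast hd)
    omega
  have h2 : cv A B α β (lamz z) (lamz z) w ≤
      ∑ y ∈ B, (Vz z)⁻¹ ^ 2 * (if y ∈ J.filter (good z w (-β)) then 1 else 0) := by
    unfold cv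
    rw [sum_comm]
    refine sum_le_sum fun y hy => ?_
    by_cases hx : ∃ x ∈ A, α * x + β * y = w
    · obtain ⟨x, hx, e⟩ := hx
      rw [sum_eq_single x, if_pos e]
      · unfold lamz
        split_ifs with c1 c2 c3 c4 c5 c6 c7
        · rw [sq, mul_one]
        · exfalso
          refine c3 (mem_filter.2 ⟨h x hx y hy e, fun p hp => ⟨c2 p hp, fun hp2 hd => ?_⟩⟩)
          have e' : (w : ℤ) + -β * y = α * x := by linear_combination -e
          rw [e'] at hd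
          have hp' := (mem_pz.1 hp).2
          rcases (Nat.prime_iff_prime_int.1 hp').dvd_or_dvd hd with h | h
          · exact dvd_four hα p hp' hp2 h
          · exact c1 p hp (by exact_mod_cast h)
        all_goals simp [sq_nonneg]
      · intro b _ hb
        rw [if_neg]
        intro e2
        apply hb
        have : α * b = α * x := by linear_combination e2 - e
        exact_mod_cast mul_left_cancel₀ (ne_zero_four hα) this
      · intro h1; exact absurd hx h1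
    · rw [sum_eq_zero fun x hx' => if_neg fun e => hx ⟨x, hx', e⟩]
      positivity
  refine h2.trans ?_
  rw [← mul_sum, sum_boole]
  refine mul_le_mul_of_nonneg_left ?_ (by positivity)
  have h3 : #(B.filter (fun y => y ∈ J.filter (good z w (-β)))) ≤ #(J.filter (good z w (-β))) :=
    card_le_card fun y hy => (mem_filter.1 hy).2
  have h4 : (#(B.filter (fun y => y ∈ J.filter (good z w (-β)))) : ℝ) ≤
      #(J.filter (good z w (-β))) := by exact_mod_cast h3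
  linarith [(abs_le.1 h1).2]

lemma real_z {d G0 t : ℝ} (hd : 0 ≤ d) (hG : 0 ≤ G0) (h : d ≤ t + G0) :
    d ^ 2 ≤ 2 * G0 * d + 4 * t ^ 2 := by
  by_cases h1 : d ≤ 2 * G0
  · nlinarith [sq_nonneg t]
  · have h2 : d ≤ 2 * t := by linarith
    nlinarith

theorem z_l2 {k z : ℕ} {μ l H m : ℝ} {A B : Finset ℕ} (hz : 2 ≤ z) (hzk : 5 * z ≤ k)
    (hV : (Vz z)⁻¹ ≤ Real.log k) (hL : 1000000 ≤ Real.log k) (hH : 0 < H) (hm : 2000000 ≤ m)
    (hl : l = m * H) (hA : Nice k z μ l A) (hB : Nice k z μ l B) (α β : ℤ) (hα : α ∣ 4)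
    (hβ : β ∣ 4)
    (hw : ∀ x ∈ A, ∀ y ∈ B, ∃ w : ℕ, (k < 5 * w ∧ w ≤ k) ∧ (w : ℤ) = α * x + β * y)
    (hJ : ∀ w : ℤ, ∃ J, Nice k z μ H J ∧ ∀ x ∈ A, ∀ y ∈ B, α * x + β * y = w → y ∈ J)
    (hn : 10 ^ 11 * (μ ^ 2 * k * Real.log k ^ 5) ≤ l ^ 3) (hn2 : 100 * (μ * Real.log k ^ 2) ≤ H)
    (R p : ℝ) (hR : R = 10000)
    (hp : p = R * Real.log k ^ 2 / (l * (PP z * (Vz z)⁻¹ ^ 2))) :
    p ^ 2 * ∑ w ∈ (edges A B α β).image (zf α β),
      (#((edges A B α β).filter (fun e => zf α β e = w)) : ℝ) ^ 2 ≤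
      102 / 10000 * (p * #(edges A B α β)) + l / Real.log k := by
  classical
  set L := Real.log k with hLd
  set S := PP z * (Vz z)⁻¹ ^ 2 with hSd
  set E := edges A B α β with hE
  have hL0 : 0 < L := by linarith
  have hS : 1 ≤ S := sing_ge z hz
  have hl0 : 0 < l := by rw [hl]; positivity
  have hμ : 0 ≤ μ := (abs_nonneg _).trans hA.pnt
  have hVi : 0 < (Vz z)⁻¹ := inv_pos.2 (Vz_pos z)
  have hD : 0 < (L - 2) ^ 2 := by have : 0 < L - 2 := by linarith
                                  positivity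
  set G0 := 101 / 100 * (S * H) / (L - 2) ^ 2 with hG0
  set W : ℕ → ℝ := fun w => cv A B α β th th w with hW
  set W' : ℕ → ℝ := fun w => cv A B α β (lamz z) (lamz z) w with hW'
  have h1 : ∑ w ∈ E.image (zf α β), (W w - W' w) ^ 2 ≤ 4 * (μ ^ 2 * k * L ^ 2) := by
    have := cv_nice hV hA hB α β (ne_zero_four hα) (ne_zero_four hβ)
      ((E.image (zf α β)).image fun x : ℕ => (x : ℤ))
    rwa [sum_image (fun a _ b _ h => by exact_mod_cast h)] at this
  have h2 : ∀ w ∈ E.image (zf α β), (#(E.filter (fun e => zf α β e = w)) : ℝ) ^ 2 ≤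
      2 * G0 * #(E.filter (fun e => zf α β e = w)) + 4 * ((W w - W' w) / (L - 2) ^ 2) ^ 2 := by
    intro w hw'
    obtain ⟨e, he, rfl⟩ := mem_image.1 hw'
    obtain ⟨⟨e1, -⟩, ⟨e2, -⟩, e3⟩ := mem_edges.1 he
    refine real_z (Nat.cast_nonneg _) (by positivity) ?_
    obtain ⟨J, hJ1, hJ2⟩ := hJ (zf α β e)
    have a0 : z < zf α β e := by
      obtain ⟨w, hw1, hw2⟩ := hw _ e1 _ e2
      unfold zf
      rw [← hw2, Int.toNat_natCast]
      omega
    have a1 := model_le hJ1 hα hβ (zf α β e) e3 a0 hJ2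
    have a2 : W' (zf α β e) ≤ 101 / 100 * (S * H) := by
      refine a1.trans ?_
      have b1 : (Vz z)⁻¹ ^ 2 * μ ≤ L ^ 2 * μ :=
        mul_le_mul_of_nonneg_right (pow_le_pow_left₀ hVi.le hV 2) hμ
      have b2 : H ≤ S * H := le_mul_of_one_le_left hH.le hS
      have b3 : (Vz z)⁻¹ ^ 2 * (H * PP z + μ) = S * H + (Vz z)⁻¹ ^ 2 * μ := by rw [hSd]; ring
      rw [b3]
      linarith
    have a3 : (L - 2) ^ 2 * #(E.filter (fun e' => zf α β e' = zf α β e)) ≤ W (zf α β e) := by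
      have b1 : W (zf α β e) = ∑ e' ∈ (A ×ˢ B).filter
          (fun e' => α * e'.1 + β * e'.2 = (zf α β e : ℤ)), th e'.1 * th e'.2 := by
        rw [sum_filter, sum_product]; rfl
      rw [b1, mul_comm, ← nsmul_eq_mul, ← sum_const]
      refine le_trans (sum_le_sum fun e' he' => ?_) (sum_le_sum_of_subset_of_nonneg
        (s := E.filter (fun e' => zf α β e' = zf α β e)) ?_
        fun _ _ _ => mul_nonneg (th_nonneg _) (th_nonneg _))
      · obtain ⟨⟨f1, f2⟩, ⟨f3, f4⟩, -⟩ := mem_edges.1 (mem_filter.1 he').1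
        have := (th_mul (by linarith : 2 ≤ Real.log k) (hA.sub _ f1) (hB.sub _ f3)).1
        rwa [if_pos ⟨f2, f4⟩, mul_one] at this
      · intro e' he'
        obtain ⟨he1, he2⟩ := mem_filter.1 he'
        obtain ⟨⟨f1, -⟩, ⟨f3, -⟩, -⟩ := mem_edges.1 he1
        refine mem_filter.2 ⟨mem_product.2 ⟨f1, f3⟩, ?_⟩
        obtain ⟨w, -, hw2⟩ := hw _ f1 _ f3
        rw [← he2]
        unfold zf
        rw [← hw2, Int.toNat_natCast]
    rw [hG0, ← add_div, le_div_iff₀ hD]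
    linarith
  have h3 : ∑ w ∈ E.image (zf α β), (#(E.filter (fun e => zf α β e = w)) : ℝ) = #E := by
    rw [card_eq_sum_card_image (zf α β) E]
    push_cast
    rfl
  have h4 := sum_le_sum h2
  rw [sum_add_distrib, ← mul_sum, h3, ← mul_sum] at h4
  simp only [div_pow] at h4
  rw [← sum_div] at h4
  have hp0 : 0 ≤ p := by rw [hp, hR]; positivity
  have hr : L ^ 2 / (L - 2) ^ 2 ≤ 1 + 1 / 100000 := by
    rw [div_le_iff₀ hD]; nlinarith
  have hr0 : 0 ≤ L ^ 2 / (L - 2) ^ 2 := by positivity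
  have h5 : p * G0 ≤ 51 / 10000 := by
    have : p * G0 = 10100 / m * (L ^ 2 / (L - 2) ^ 2) := by
      rw [hp, hG0, hR, hl]
      field_simp
      norm_num
    rw [this]
    have h6 : 10100 / m ≤ (10100 : ℝ) / 2000000 := by gcongr
    calc _ ≤ (10100 : ℝ) / 2000000 * (1 + 1 / 100000) := by gcongr
      _ ≤ _ := by norm_num
  have h6 : p / (L - 2) ^ 2 ≤ 20000 / l := by
    have : p / (L - 2) ^ 2 = 10000 / (l * S) * (L ^ 2 / (L - 2) ^ 2) := by
      rw [hp, hR]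
      field_simp
    rw [this]
    have h7 : 10000 / (l * S) ≤ 10000 / l := by
      gcongr
      exact le_mul_of_one_le_right hl0.le hS
    calc _ ≤ 10000 / l * 2 := by gcongr; linarith
      _ = _ := by ring
  have h7 : p ^ 2 * (4 * ((∑ w ∈ E.image (zf α β), (W w - W' w) ^ 2) / ((L - 2) ^ 2) ^ 2)) ≤
      l / L := by
    have e : p ^ 2 * (4 * ((∑ w ∈ E.image (zf α β), (W w - W' w) ^ 2) / ((L - 2) ^ 2) ^ 2)) =
        4 * (p / (L - 2) ^ 2) ^ 2 * ∑ w ∈ E.image (zf α β), (W w - W' w) ^ 2 := by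
      rw [div_pow]; ring
    rw [e]
    have a3 : μ ^ 2 * k * L ^ 3 ≤ μ ^ 2 * k * L ^ 5 := by
      have : L ^ 3 ≤ L ^ 5 := pow_le_pow_right₀ (by linarith) (by norm_num)
      gcongr
    have a4 : 0 ≤ μ ^ 2 * k * L ^ 3 := by positivity
    calc _ ≤ 4 * (20000 / l) ^ 2 * (4 * (μ ^ 2 * k * L ^ 2)) := by
          gcongr
      _ = (64 * 10 ^ 8 * (μ ^ 2 * k * L ^ 3)) / (l ^ 2 * L) := by field_simp; ring
      _ ≤ l ^ 3 / (l ^ 2 * L) := by gcongr; linarith
      _ = _ := by field_simp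
  have h8 := mul_le_mul_of_nonneg_left h4 (sq_nonneg p)
  have h9 : 0 ≤ p * #E := by positivity
  have h10 : p ^ 2 * (2 * G0 * #E) = 2 * ((p * G0) * (p * #E)) := by ring
  have h11 := mul_le_mul_of_nonneg_right h5 h9
  rw [mul_add, h10] at h8
  linarith

theorem match_gen {k z : ℕ} {μ l l' H m : ℝ} {A B Z : Finset ℕ} (hz : 2 ≤ z) (hzk : 5 * z ≤ k)
    (hV : (Vz z)⁻¹ ≤ Real.log k) (hL : 1000000 ≤ Real.log k) (hH : Real.log k ^ 2 ≤ H)
    (hm : 2000000 ≤ m) (hl : l = m * H) (hA : Nice k z μ l A) (hB : Nice k z μ l B)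
    (hZ : Nice k z μ l' Z) (α β : ℤ) (hα : α ∣ 4) (hβ : β ∣ 4) (hpar : Odd (α + β))
    (hw : ∀ x ∈ A, ∀ y ∈ B, ∃ w ∈ Z, (w : ℤ) = α * x + β * y)
    (hJ : ∀ w : ℤ, ∃ J, Nice k z μ H J ∧ ∀ x ∈ A, ∀ y ∈ B, α * x + β * y = w → y ∈ J)
    (hn : 10 ^ 11 * (μ ^ 2 * k * Real.log k ^ 5) ≤ l ^ 3)
    (hn2 : 100 * (μ * Real.log k ^ 2) ≤ H) :
    ∃ M ⊆ edges A B α β, Set.InjOn Prod.fst (M : Set (ℕ × ℕ)) ∧
      Set.InjOn Prod.snd (M : Set (ℕ × ℕ)) ∧ Set.InjOn (zf α β) M ∧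
      95 / 100 * (l / Real.log k) ≤ #M := by
  classical
  have hL0 : 0 < Real.log k := by linarith
  have hL2 : 1000000 ≤ Real.log k ^ 2 := by nlinarith
  have hH0 : 0 < H := by linarith
  have hl0 : 0 < l := by rw [hl]; positivity
  have hμ : 0 ≤ μ := (abs_nonneg _).trans hA.pnt
  have hHl : 10000 * H ≤ l := by rw [hl]; nlinarith
  have hμl : 10000 * μ ≤ l := by nlinarith
  have hS := sing_ge z hz
  obtain ⟨cA1, cA2⟩ := nice_card hA hL hμl
  obtain ⟨-, cB2⟩ := nice_card hB hL hμl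
  obtain ⟨p, hp⟩ : ∃ p : ℝ, p = 10000 * Real.log k ^ 2 / (l * (PP z * (Vz z)⁻¹ ^ 2)) := ⟨_, rfl⟩
  have hp0 : 0 ≤ p := by rw [hp]; positivity
  have hp1 : p ≤ 1 := by
    rw [hp, div_le_one (by positivity)]
    have := le_mul_of_one_le_right hl0.le hS
    linarith
  obtain ⟨M, hM, i1, i2, i3, hc⟩ := matching (edges A B α β) Prod.fst Prod.snd (zf α β)
    (A.filter Nat.Prime) (B.filter Nat.Prime) (fun e he => mem_filter.2 (mem_edges.1 he).1)
    (fun e he => mem_filter.2 (mem_edges.1 he).2.1) p 10000 100 hp0 hp1 (by norm_num) (by norm_num)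
  refine ⟨M, hM, i1, i2, i3, ?_⟩
  have d1 := deg_l2 hz hzk hV hL hl0 hB hZ α β hα hβ hpar (A.filter Nat.Prime)
    (fun x hx => ⟨(mem_filter.1 hx).2, hA.sub x (mem_filter.1 hx).1⟩)
    (fun x hx => hw x (mem_filter.1 hx).1) cA2 hn 10000 p rfl hp
  have d2 := deg_l2 hz hzk hV hL hl0 hA hZ β α hβ hα (by rwa [add_comm]) (B.filter Nat.Prime)
    (fun x hx => ⟨(mem_filter.1 hx).2, hB.sub x (mem_filter.1 hx).1⟩)
    (fun y hy x hx => by rw [add_comm]; exact hw x hx y (mem_filter.1 hy).1) cB2 hn 10000 p rfl hp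
  have d3 := z_l2 hz hzk hV hL hH0 hm hl hA hB α β hα hβ
    (fun x hx y hy => by
      obtain ⟨w, h1, h2⟩ := hw x hx y hy
      exact ⟨w, hZ.sub w h1, h2⟩) hJ hn hn2 10000 p rfl hp
  have e1 : ∀ v ∈ A.filter Nat.Prime, #((edges A B α β).filter (fun e => e.1 = v)) =
      #(B.filter (fun y : ℕ => y.Prime ∧ (α * v + β * y).toNat.Prime)) := by
    intro v hv
    refine card_bij (fun e _ => e.2) ?_ ?_ ?_
    · intro e he
      obtain ⟨h1, rfl⟩ := mem_filter.1 he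
      obtain ⟨-, ⟨h2, h3⟩, h4⟩ := mem_edges.1 h1
      exact mem_filter.2 ⟨h2, h3, h4⟩
    · intro e he e' he' h
      exact Prod.ext ((mem_filter.1 he).2.trans (mem_filter.1 he').2.symm) h
    · intro y hy
      obtain ⟨h1, h2, h3⟩ := mem_filter.1 hy
      exact ⟨(v, y), mem_filter.2 ⟨mem_edges.2 ⟨mem_filter.1 hv, ⟨h1, h2⟩, h3⟩, rfl⟩, rfl⟩
  have e2 : ∀ v ∈ B.filter Nat.Prime, #((edges A B α β).filter (fun e => e.2 = v)) =
      #(A.filter (fun y : ℕ => y.Prime ∧ (β * v + α * y).toNat.Prime)) := by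
    intro v hv
    refine card_bij (fun e _ => e.1) ?_ ?_ ?_
    · intro e he
      obtain ⟨h1, rfl⟩ := mem_filter.1 he
      obtain ⟨⟨h2, h3⟩, -, h4⟩ := mem_edges.1 h1
      exact mem_filter.2 ⟨h2, h3, by rw [add_comm]; exact h4⟩
    · intro e he e' he' h
      exact Prod.ext h ((mem_filter.1 he).2.trans (mem_filter.1 he').2.symm)
    · intro y hy
      obtain ⟨h1, h2, h3⟩ := mem_filter.1 hy
      exact ⟨(y, v), mem_filter.2 ⟨mem_edges.2 ⟨⟨h1, h2⟩, mem_filter.1 hv,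
        by rw [add_comm] at h3; exact h3⟩, rfl⟩, rfl⟩
  replace d1 : ∑ v ∈ A.filter Nat.Prime,
      ((p * #((edges A B α β).filter (fun e => e.1 = v)) - 10000) ^ 2 +
        p * #((edges A B α β).filter (fun e => e.1 = v))) ≤ 10015 * (l / Real.log k) :=
    le_trans (le_of_eq (sum_congr rfl fun v hv => by rw [e1 v hv])) d1
  replace d2 : ∑ v ∈ B.filter Nat.Prime,
      ((p * #((edges A B α β).filter (fun e => e.2 = v)) - 10000) ^ 2 +
        p * #((edges A B α β).filter (fun e => e.2 = v))) ≤ 10015 * (l / Real.log k) :=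
    le_trans (le_of_eq (sum_congr rfl fun v hv => by rw [e2 v hv])) d2
  have e3 : p * #(edges A B α β) ≤ 10015 * (l / Real.log k) := by
    refine le_trans ?_ d1
    rw [card_eq_sum_card_fiberwise (f := Prod.fst) (s := edges A B α β) (t := A.filter Nat.Prime)
      (fun e he => mem_filter.2 (mem_edges.1 he).1)]
    push_cast
    rw [mul_sum]
    exact sum_le_sum fun v _ => le_add_of_nonneg_left (sq_nonneg _)
  have : 0 ≤ l / Real.log k := by positivity
  linarith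

end Pool.Agent.H861Z.Smooth
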