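import Mathlib
import Pool.Agent.H861Z.Smooth.Mat

/-! Unions of equally spaced intervals, and merging of families of pairs. -/

set_option maxHeartbeats 400000

namespace Pool.Agent.H861Z.Smooth
open Finset
open Pool.Agent.H807R2.Dav Pool.Agent.H373R2.T7

/-- `m` intervals of length `H` at distance `lam` -/
def UI (s lam H m : ℕ) : Finset ℕ :=
  (range m).biUnion (fun i => Ioc (s + i * lam) (s + i * lam + H))

lemma mem_UI {s lam H m x : ℕ} : x ∈ UI s lam H m ↔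
    ∃ i < m, s + i * lam < x ∧ x ≤ s + i * lam + H := by
  simp only [UI, mem_biUnion, mem_range, mem_Ioc]

lemma step_le {i m lam : ℕ} (h : i < m) : i * lam + lam ≤ m * lam := by
  rw [← Nat.succ_mul]; exact Nat.mul_le_mul_right _ h

lemma UI_bd {s lam H m x : ℕ} (hH : H ≤ lam) (h : x ∈ UI s lam H m) :
    s < x ∧ x ≤ s + m * lam := by
  obtain ⟨i, hi, h1, h2⟩ := mem_UI.1 h
  have := step_le (lam := lam) hi
  omega

lemma sum_UI {M : Type} [AddCommMonoid M] {s lam H m : ℕ} (hH : H ≤ lam) (f : ℕ → M) :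
    ∑ x ∈ UI s lam H m, f x = ∑ i ∈ range m, ∑ x ∈ Ioc (s + i * lam) (s + i * lam + H), f x := by
  refine sum_biUnion fun i _ j _ hij => ?_
  rw [Function.onFun, disjoint_left]
  intro x h1 h2
  rw [mem_Ioc] at h1 h2
  rcases lt_or_gt_of_ne hij with h | h
  · have := step_le (lam := lam) h
    omega
  · have := step_le (lam := lam) h
    omega

lemma abs_sum_sub {m : ℕ} (a : ℕ → ℝ) (c η : ℝ) (h : ∀ i < m, |a i - c| ≤ η) :
    |∑ i ∈ range m, a i - m * c| ≤ m * η := by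
  have e : ∑ i ∈ range m, a i - m * c = ∑ i ∈ range m, (a i - c) := by
    rw [sum_sub_distrib, sum_const, card_range, nsmul_eq_mul]
  rw [e]
  refine (abs_sum_le_sum_abs _ _).trans ((sum_le_sum fun i hi => h i (mem_range.1 hi)).trans ?_)
  rw [sum_const, card_range, nsmul_eq_mul]

lemma nice_Ioc {k z : ℕ} {η μ : ℝ} (hc : Ctx k z η) (hμ : η ≤ μ) {s t : ℕ} (hs : k ≤ 5 * s)
    (hst : s ≤ t) (ht : t ≤ k) : Nice k z μ (t - s) (Ioc s t) where
  sub := fun a ha => by rw [mem_Ioc] at ha; omega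
  four := fun α => (hc.four s t hs hst ht α).trans hμ
  cnt := fun n β h1 h2 => (hc.cnt s t hs hst ht n β h1 h2).trans hμ
  pnt := (hc.pnt s t hst (by omega)).trans hμ

lemma nice_piece {k z : ℕ} {η μ : ℝ} (hc : Ctx k z η) (hμ : η ≤ μ) {s lam H m i : ℕ}
    (hH : H ≤ lam) (hs : k ≤ 5 * s) (ht : s + m * lam ≤ k) (hi : i < m) :
    Nice k z μ H (Ioc (s + i * lam) (s + i * lam + H)) := by
  have h1 := step_le (lam := lam) hi
  have := nice_Ioc hc hμ (s := s + i * lam) (t := s + i * lam + H) (by omega) (by omega) (by omega)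
  rwa [Nat.cast_add (s + i * lam) H, add_sub_cancel_left] at this

lemma nice_UI {k z : ℕ} {η : ℝ} (hc : Ctx k z η) {s lam H m : ℕ}
    (hH : H ≤ lam) (hs : k ≤ 5 * s) (ht : s + m * lam ≤ k) :
    Nice k z (m * η) (m * H) (UI s lam H m) where
  sub := fun a ha => by have := UI_bd hH ha; omega
  four := fun α => by
    rw [sum_UI hH]
    refine (norm_sum_le _ _).trans ((sum_le_sum fun i hi =>
      (nice_piece hc le_rfl hH hs ht (mem_range.1 hi)).four α).trans ?_)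
    rw [sum_const, card_range, nsmul_eq_mul]
  cnt := fun n β h1 h2 => by
    rw [← sum_boole, sum_UI hH, mul_assoc]
    refine abs_sum_sub _ _ _ fun i hi => ?_
    rw [sum_boole]
    exact (nice_piece hc le_rfl hH hs ht hi).cnt n β h1 h2
  pnt := by
    rw [sum_UI hH]
    exact abs_sum_sub _ _ _ fun i hi => (nice_piece hc le_rfl hH hs ht hi).pnt

theorem match_UI {k z : ℕ} {η : ℝ} (hc : Ctx k z η) {m H : ℕ} (hm : 2000000 ≤ m)
    (hL : 1000000 ≤ Real.log k) (hH : Real.log k ^ 2 ≤ H)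
    (hn : 10 ^ 11 * ((m * η) ^ 2 * k * Real.log k ^ 5) ≤ ((m : ℝ) * H) ^ 3)
    (hn2 : 100 * (m * η * Real.log k ^ 2) ≤ H) (s lam s' lam' σ : ℕ) (h1 : H ≤ lam)
    (h2 : 8 * (m * lam) ≤ lam') (h3 : m * lam' ≤ σ) (hs : k ≤ 5 * s) (ht : s + σ ≤ k)
    (hs' : k ≤ 5 * s') (ht' : s' + σ ≤ k) (α β : ℤ) (hα : α ∣ 4) (hβ : β ∣ 4)
    (hpar : Odd (α + β))
    (hw : ∀ x y : ℕ, s < x → x ≤ s + σ → s' < y → y ≤ s' + σ →
      (k : ℤ) < 2 * (α * x + β * y) ∧ α * x + β * y ≤ k) :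
    ∃ M : Finset (ℕ × ℕ), (∀ e ∈ M, e.1 ∈ (UI s lam H m).filter Nat.Prime ∧
      e.2 ∈ (UI s' lam' H m).filter Nat.Prime ∧ (zf α β e).Prime ∧
      (zf α β e : ℤ) = α * e.1 + β * e.2 ∧ s < e.1 ∧ e.1 ≤ s + σ ∧ s' < e.2 ∧ e.2 ≤ s' + σ) ∧
      Set.InjOn Prod.fst (M : Set (ℕ × ℕ)) ∧
      Set.InjOn Prod.snd (M : Set (ℕ × ℕ)) ∧ Set.InjOn (zf α β) M ∧
      95 / 100 * (m * H / Real.log k) ≤ #M := by
  have hm1 : (1 : ℝ) ≤ m := by exact_mod_cast (by omega : 1 ≤ m)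
  have hη : 0 ≤ η := (abs_nonneg _).trans (hc.pnt 0 0 le_rfl (by omega))
  have hημ : η ≤ m * η := le_mul_of_one_le_left hη hm1
  have a1 : lam ≤ m * lam := Nat.le_mul_of_pos_left _ (by omega)
  have a2 : lam' ≤ m * lam' := Nat.le_mul_of_pos_left _ (by omega)
  have hk : 10 ≤ k := by have := hc.zlo; have := hc.zhi; omega
  have b1 : ∀ x ∈ UI s lam H m, s < x ∧ x ≤ s + σ := fun x hx => by
    have := UI_bd h1 hx; omega
  have b2 : ∀ x ∈ UI s' lam' H m, s' < x ∧ x ≤ s' + σ := fun x hx => by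
    have := UI_bd (by omega) hx; omega
  obtain ⟨M, hM, i1, i2, i3, hcard⟩ := match_gen (H := H) (m := m) hc.zlo hc.zhi hc.vinv hL hH
    (by exact_mod_cast hm) rfl (nice_UI hc (s := s) h1 hs (by omega))
    (nice_UI hc (s := s') (lam := lam') (by omega) hs' (by omega))
    (nice_Ioc hc hημ (s := k / 2) (t := k) (by omega) (by omega) le_rfl) α β hα hβ hpar
    (fun x hx y hy => by
      obtain ⟨c1, c2⟩ := hw x y (b1 x hx).1 (b1 x hx).2 (b2 y hy).1 (b2 y hy).2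
      refine ⟨(α * x + β * y).toNat, mem_Ioc.2 ⟨?_, ?_⟩, ?_⟩ <;> omega)
    (fun w => by
      by_cases hex : ∃ x ∈ UI s lam H m, ∃ y ∈ UI s' lam' H m, α * x + β * y = w
      · obtain ⟨x0, hx0, y0, hy0, e0⟩ := hex
        obtain ⟨j, hj, c1, c2⟩ := mem_UI.1 hy0
        refine ⟨_, nice_piece hc hημ (s := s') (lam := lam') (by omega) hs' (by omega) hj, ?_⟩
        intro x hx y hy e
        obtain ⟨j', hj', c3, c4⟩ := mem_UI.1 hy
        have d1 := UI_bd h1 hx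
        have d2 := UI_bd h1 hx0
        have d3 : |(y : ℤ) - y0| ≤ 4 * |(x0 : ℤ) - x| := by
          have e1 : β * ((y : ℤ) - y0) = α * ((x0 : ℤ) - x) := by linear_combination e - e0
          have e2 := congrArg abs e1
          rw [abs_mul, abs_mul] at e2
          have e3 : 1 ≤ |β| := Int.one_le_abs (ne_zero_four hβ)
          have e4 : |α| ≤ 4 := Int.le_of_dvd (by norm_num) ((abs_dvd _ _).2 hα)
          nlinarith [abs_nonneg ((y : ℤ) - y0), abs_nonneg ((x0 : ℤ) - x)]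
        have d4 : |(x0 : ℤ) - x| < (m * lam : ℕ) := by rw [abs_lt]; constructor <;> omega
        have d5 := abs_le.1 d3
        rcases lt_trichotomy j j' with h | h | h
        · have := step_le (lam := lam') h
          omega
        · rw [h]; exact mem_Ioc.2 ⟨c3, c4⟩
        · have := step_le (lam := lam') h
          omega
      · exact ⟨_, nice_piece hc hημ (s := s') (lam := lam') (i := 0) (m := m) (by omega) hs'
          (by omega) (by omega), fun x hx y hy e => absurd ⟨x, hx, y, hy, e⟩ hex⟩) hn hn2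
  refine ⟨M, fun e he => ?_, i1, i2, i3, hcard⟩
  obtain ⟨c1, c2, c3⟩ := mem_edges.1 (hM he)
  obtain ⟨d1, d2⟩ := b1 _ c1.1
  obtain ⟨d3, d4⟩ := b2 _ c2.1
  refine ⟨mem_filter.2 c1, mem_filter.2 c2, c3, ?_, d1, d2, d3, d4⟩
  have := (hw _ _ d1 d2 d3 d4).1
  unfold zf
  omega

/-- the window around `c u` -/
def Win (u c x : ℕ) : Prop := c * u < x + u ∧ x < c * u + u

lemma Win.eq {u c c' x : ℕ} (h : Win u (2 * c) x) (h' : Win u (2 * c') x) : c = c' := by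
  obtain ⟨h1, h2⟩ := h
  obtain ⟨h3, h4⟩ := h'
  rcases lt_trichotomy c c' with h | h | h
  · have := step_le (lam := 2 * u) h
    nlinarith
  · exact h
  · have := step_le (lam := 2 * u) h
    nlinarith

/-- a family of pairs of terms covered by one prime each -/
def Fam (u : ℕ) (S Bad : Finset ℕ) (r : ℝ) (c0 c1 c2 : ℕ) : Prop :=
  ∃ (M : Finset (ℕ × ℕ)) (pr m1 m2 : ℕ × ℕ → ℕ),
    (∀ e ∈ M, pr e ∈ S ∧ m1 e ∈ Bad ∧ m2 e ∈ Bad ∧ m1 e ≡ m2 e [MOD pr e] ∧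
      Win u (2 * c0) (pr e) ∧ Win u (2 * c1) (m1 e) ∧ Win u (2 * c2) (m2 e)) ∧
    Set.InjOn pr M ∧ Set.InjOn m1 M ∧ Set.InjOn m2 M ∧ r ≤ #M

theorem merge (u : ℕ) (S Bad : Finset ℕ) (r : ℝ) (c0 c1 c2 : Fin 9 → ℕ)
    (j0 : Function.Injective c0) (j1 : Function.Injective c1) (j2 : Function.Injective c2)
    (j12 : ∀ t t', c1 t ≠ c2 t') (h : ∀ t, Fam u S Bad r (c0 t) (c1 t) (c2 t))
    (hcard : (#Bad : ℝ) ≤ #S + 9 * r) :
    ∃ c : ℕ → ℕ, (∀ p, p ∉ S → c p = 0) ∧ ∀ m ∈ Bad, ∃ p ∈ S, m ≡ c p [MOD p] := by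
  choose M pr m1 m2 hM i0 i1 i2 hr using h
  have inj : ∀ (f : Fin 9 → ℕ × ℕ → ℕ) (c : Fin 9 → ℕ), Function.Injective c →
      (∀ t, ∀ e ∈ M t, Win u (2 * c t) (f t e)) → (∀ t, Set.InjOn (f t) (M t)) →
      Set.InjOn (fun e : (Σ _ : Fin 9, ℕ × ℕ) => f e.1 e.2)
        ((univ : Finset (Fin 9)).sigma M : Finset (Σ _ : Fin 9, ℕ × ℕ)) := by
    rintro f c hc hW hf ⟨t, e⟩ he ⟨t', e'⟩ he' h
    have h1 : e ∈ M t := (mem_sigma.1 (mem_coe.1 he)).2
    have h2 : e' ∈ M t' := (mem_sigma.1 (mem_coe.1 he')).2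
    have h3 : f t e = f t' e' := h
    have h4 : t = t' := hc ((hW t e h1).eq (h3 ▸ hW t' e' h2))
    subst h4
    rw [hf t h1 h2 h3]
  refine cover S Bad ((univ : Finset (Fin 9)).sigma M) (fun e => pr e.1 e.2) (fun e => m1 e.1 e.2)
    (fun e => m2 e.1 e.2) (fun e he => (hM _ _ (mem_sigma.1 he).2).1)
    (fun e he => (hM _ _ (mem_sigma.1 he).2).2.1) (fun e he => (hM _ _ (mem_sigma.1 he).2).2.2.1)
    (inj pr c0 j0 (fun t e he => (hM t e he).2.2.2.2.1) i0)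
    (inj m1 c1 j1 (fun t e he => (hM t e he).2.2.2.2.2.1) i1)
    (inj m2 c2 j2 (fun t e he => (hM t e he).2.2.2.2.2.2) i2) (fun e he e' he' h => ?_)
    (fun e he => (hM _ _ (mem_sigma.1 he).2).2.2.2.1) ?_
  · have h1 := (hM _ _ (mem_sigma.1 he).2).2.2.2.2.2.1
    have h2 := (hM _ _ (mem_sigma.1 he').2).2.2.2.2.2.2
    exact j12 _ _ (h1.eq (h ▸ h2))
  · have h1 : 9 * r ≤ (#((univ : Finset (Fin 9)).sigma M) : ℝ) := by
      rw [card_sigma]
      push_cast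
      have := sum_le_sum (s := (univ : Finset (Fin 9))) fun t _ => hr t
      simpa using this
    have : (#Bad : ℝ) ≤ #S + #((univ : Finset (Fin 9)).sigma M) := by linarith
    exact_mod_cast this

end Pool.Agent.H861Z.Smooth
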