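import Mathlib
import Pool.Agent.H861Z.Smooth.Uni

/-! The nine families of pairs, and the lower bound. -/

set_option maxHeartbeats 1000000

namespace Pool.Agent.H861Z.Smooth
open Finset
open Pool.Agent.H807R2.Dav Pool.Agent.H373R2.T7

lemma inj_mul {ι : Type} {f : ι → ℕ} {M : Set ι} (j : ℕ) (hj : 0 < j) (h : Set.InjOn f M) :
    Set.InjOn (fun e => j * f e) M :=
  fun _ ha _ hb e => h ha hb (Nat.eq_of_mul_eq_mul_left hj e)

lemma bad_card (u k H : ℕ) (hk : k = 1000 * u) (hH : H < u) (A B L S Bad : Finset ℕ)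
    (hS : S = A ∪ B ∪ L) (hA : ∀ q ∈ A, 240 * u < q) (hB : ∀ q ∈ B, 376 * u < q)
    (hL : ∀ q ∈ L, 501 * u < q)
    (hBad : ∀ n ∈ Bad, n ∈ Ioc H (H + k) ∧ ∃ q, q.Prime ∧ q ∣ n ∧ (q ∈ S ∨ k ≤ q)) :
    #Bad ≤ #S + 3 * #A + #B + #((Ioc (k - 1) (k + H)).filter Nat.Prime) := by
  have hsub : Bad ⊆ S ∪ (Icc 2 4 ×ˢ A).image (fun e => e.1 * e.2) ∪ B.image (fun q => 2 * q) ∪
      (Ioc (k - 1) (k + H)).filter Nat.Prime := by
    intro n hn
    obtain ⟨h1, q, hq, ⟨j, rfl⟩, h2⟩ := hBad n hn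
    rw [mem_Ioc] at h1
    simp only [mem_union]
    have hj0 : j ≠ 0 := by rintro rfl; omega
    have hj : ∀ a, a ≤ j → q * a ≤ q * j := fun a h => Nat.mul_le_mul_left q h
    by_cases hj1 : j = 1
    · subst hj1
      rw [mul_one] at h1 ⊢
      rcases h2 with h2 | h2
      · exact Or.inl (Or.inl (Or.inl h2))
      · exact Or.inr (mem_filter.2 ⟨mem_Ioc.2 ⟨by omega, by omega⟩, hq⟩)
    · have h3 := hj 2 (by omega)
      rcases h2 with h2 | h2
      · rw [hS, mem_union, mem_union] at h2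
        rcases h2 with (h2 | h2) | h2
        · refine Or.inl (Or.inl (Or.inr (mem_image.2 ⟨(j, q), mem_product.2 ⟨mem_Icc.2
            ⟨by omega, ?_⟩, h2⟩, mul_comm _ _⟩)))
          by_contra h4
          have := hj 5 (by omega)
          have := hA q h2
          omega
        · refine Or.inl (Or.inr (mem_image.2 ⟨q, h2, ?_⟩))
          have h4 : j = 2 := by
            by_contra h4
            have := hj 3 (by omega)
            have := hB q h2
            omega
          rw [h4, mul_comm]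
        · have := hL q h2
          omega
      · omega
  have h1 := card_le_card hsub
  have h2 : #((Icc 2 4 ×ˢ A).image (fun e : ℕ × ℕ => e.1 * e.2)) ≤ 3 * #A := by
    refine card_image_le.trans ?_
    rw [card_product, Nat.card_Icc]
  have h3 : #(B.image (fun q => 2 * q)) ≤ #B := card_image_le
  have h4 := card_union_le (S ∪ (Icc 2 4 ×ˢ A).image (fun e => e.1 * e.2) ∪ B.image (fun q => 2 * q))
    ((Ioc (k - 1) (k + H)).filter Nat.Prime)
  have h5 := card_union_le (S ∪ (Icc 2 4 ×ˢ A).image (fun e => e.1 * e.2)) (B.image (fun q => 2 * q))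
  have h6 := card_union_le S ((Icc 2 4 ×ˢ A).image (fun e => e.1 * e.2))
  omega

lemma top_card {k z H : ℕ} {η : ℝ} (hc : Ctx k z η) (hk : 1 ≤ k) (hH : H ≤ k) :
    Real.log k * #((Ioc (k - 1) (k + H)).filter Nat.Prime) ≤ H + 1 + η := by
  have h := (abs_le.1 (hc.pnt (k - 1) (k + H) (by omega) (by omega))).2
  rw [Nat.cast_sub hk] at h
  push_cast at h
  have h1 : Real.log k * #((Ioc (k - 1) (k + H)).filter Nat.Prime) ≤
      ∑ n ∈ Ioc (k - 1) (k + H), th n := by
    rw [← sum_boole, mul_sum]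
    refine sum_le_sum fun a ha => ?_
    rw [mem_Ioc] at ha
    unfold th
    split_ifs
    · rw [mul_one]
      exact Real.log_le_log (by exact_mod_cast hk) (by exact_mod_cast (by omega : k ≤ a))
    · simp
  linarith

theorem assemble {k z : ℕ} {η : ℝ} (hc : Ctx k z η) {m H : ℕ} (hm : 2000000 ≤ m)
    (hL : 1000000 ≤ Real.log k) (hH : Real.log k ^ 2 ≤ H)
    (hn : 10 ^ 11 * ((m * η) ^ 2 * k * Real.log k ^ 5) ≤ ((m : ℝ) * H) ^ 3)
    (hn2 : 100 * (m * η * Real.log k ^ 2) ≤ H) (hk : k = 640000 * m ^ 3 * H) :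
    ∃ n : ℕ, ∀ i ∈ Icc 1 k,
      H < ∏ p ∈ (range k).filter Nat.Prime, p ^ ((n + i).factorization p) := by
  classical
  obtain ⟨l1, hl1⟩ : ∃ l1, l1 = 8 * (m * H) := ⟨_, rfl⟩
  obtain ⟨l2, hl2⟩ : ∃ l2, l2 = 8 * (m * l1) := ⟨_, rfl⟩
  obtain ⟨σ, hσ⟩ : ∃ σ, σ = m * l2 := ⟨_, rfl⟩
  obtain ⟨u, hu⟩ : ∃ u, u = 10 * σ := ⟨_, rfl⟩
  have hku : k = 1000 * u := by rw [hk, hu, hσ, hl2, hl1]; ring
  clear hk
  have hL0 : 0 < Real.log k := by linarith
  have hL2 : 1000000 ≤ Real.log k ^ 2 := by nlinarith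
  have hH1 : 1 ≤ H := by
    have : (1 : ℝ) ≤ H := by linarith
    exact_mod_cast this
  have a0 : H ≤ m * H := Nat.le_mul_of_pos_left _ (by omega)
  have a1 : l1 ≤ m * l1 := Nat.le_mul_of_pos_left _ (by omega)
  have a2 : l2 ≤ m * l2 := Nat.le_mul_of_pos_left _ (by omega)
  obtain ⟨A1, hA1⟩ : ∃ A, A = (UI (240 * u) H H m).filter Nat.Prime := ⟨_, rfl⟩
  obtain ⟨A2, hA2⟩ : ∃ A, A = (UI (244 * u) H H m).filter Nat.Prime := ⟨_, rfl⟩
  obtain ⟨B1, hB1'⟩ : ∃ A, A = (UI (376 * u) l1 H m).filter Nat.Prime := ⟨_, rfl⟩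
  obtain ⟨B2, hB2⟩ : ∃ A, A = (UI (444 * u) l2 H m).filter Nat.Prime := ⟨_, rfl⟩
  obtain ⟨Lv, hLv⟩ : ∃ A, A = (Ioo (501 * u) k).filter Nat.Prime := ⟨_, rfl⟩
  obtain ⟨S, hS⟩ : ∃ S, S = (A1 ∪ A2) ∪ (B1 ∪ B2) ∪ Lv := ⟨_, rfl⟩
  obtain ⟨Bad, hBad⟩ : ∃ B, B = (Ioc H (H + k)).filter
    (fun n => ∃ q, q.Prime ∧ q ∣ n ∧ (q ∈ S ∨ k ≤ q)) := ⟨_, rfl⟩
  obtain ⟨r, hr⟩ : ∃ r : ℝ, r = 95 / 100 * (m * H / Real.log k) := ⟨_, rfl⟩
  have bd : ∀ (c lam : ℕ), H ≤ lam → m * lam ≤ σ → ∀ q ∈ (UI (c * u) lam H m).filter Nat.Prime,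
      q.Prime ∧ c * u < q ∧ q ≤ c * u + σ := by
    intro c lam h1 h2 q hq
    have := UI_bd h1 (mem_filter.1 hq).1
    exact ⟨(mem_filter.1 hq).2, by omega, by omega⟩
  have bA1 : ∀ q ∈ A1, q.Prime ∧ 240 * u < q ∧ q ≤ 240 * u + σ := by
    rw [hA1]; exact bd 240 H le_rfl (by omega)
  have bA2 : ∀ q ∈ A2, q.Prime ∧ 244 * u < q ∧ q ≤ 244 * u + σ := by
    rw [hA2]; exact bd 244 H le_rfl (by omega)
  have bB1 : ∀ q ∈ B1, q.Prime ∧ 376 * u < q ∧ q ≤ 376 * u + σ := by
    rw [hB1']; exact bd 376 l1 (by omega) (by omega)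
  have bB2 : ∀ q ∈ B2, q.Prime ∧ 444 * u < q ∧ q ≤ 444 * u + σ := by
    rw [hB2]; exact bd 444 l2 (by omega) (by omega)
  have bL : ∀ q ∈ Lv, q.Prime ∧ 501 * u < q ∧ q < k := by
    intro q hq
    rw [hLv, mem_filter, mem_Ioo] at hq
    exact ⟨hq.2, hq.1⟩
  have hSp : ∀ q ∈ S, q.Prime ∧ q < k ∧ H < q := by
    intro q hq
    rw [hS] at hq
    simp only [mem_union] at hq
    rcases hq with ((h | h) | (h | h)) | h
    · have := bA1 q h; exact ⟨this.1, by omega, by omega⟩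
    · have := bA2 q h; exact ⟨this.1, by omega, by omega⟩
    · have := bB1 q h; exact ⟨this.1, by omega, by omega⟩
    · have := bB2 q h; exact ⟨this.1, by omega, by omega⟩
    · have := bL q h; exact ⟨this.1, by omega, by omega⟩
  have sA1 : ∀ q ∈ (UI (240 * u) H H m).filter Nat.Prime, q ∈ S := fun q hq => by
    rw [hS, hA1]; simp only [mem_union]; exact Or.inl (Or.inl (Or.inl hq))
  have sA2 : ∀ q ∈ (UI (244 * u) H H m).filter Nat.Prime, q ∈ S := fun q hq => by
    rw [hS, hA2]; simp only [mem_union]; exact Or.inl (Or.inl (Or.inr hq))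
  have sB1 : ∀ q ∈ (UI (376 * u) l1 H m).filter Nat.Prime, q ∈ S := fun q hq => by
    rw [hS, hB1']; simp only [mem_union]; exact Or.inl (Or.inr (Or.inl hq))
  have sB2 : ∀ q ∈ (UI (444 * u) l2 H m).filter Nat.Prime, q ∈ S := fun q hq => by
    rw [hS, hB2]; simp only [mem_union]; exact Or.inl (Or.inr (Or.inr hq))
  have sL : ∀ q : ℕ, q.Prime → 501 * u < q → q < k → q ∈ S := fun q h1 h2 h3 => by
    rw [hS, hLv]; exact mem_union_right _ (mem_filter.2 ⟨mem_Ioo.2 ⟨h2, h3⟩, h1⟩)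
  have hB : ∀ q ∈ S, ∀ j, H < j * q → j * q ≤ H + k → j * q ∈ Bad := fun q hq j h1 h2 => by
    rw [hBad]
    exact mem_filter.2 ⟨mem_Ioc.2 ⟨h1, h2⟩, q, (hSp q hq).1, dvd_mul_left _ _, Or.inl hq⟩
  have hB1 : ∀ q ∈ S, H < q → q ≤ H + k → q ∈ Bad := fun q hq h1 h2 => by
    simpa using hB q hq 1 (by omega) (by omega)
  have F1 : Fam u S Bad r 188 120 496 := by
    obtain ⟨M, hM, i1, i2, i3, hr'⟩ := match_UI hc hm hL hH hn hn2 (240 * u) H (376 * u) l1 σ
      (by omega) (by omega) (by omega) (by omega) (by omega) (by omega) (by omega) (1) (2)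
      (by norm_num) (by norm_num) (by decide) (by intro x y _ _ _ _; omega)
    refine ⟨M, (fun e => e.2), (fun e => e.1), (fun e => zf (1) (2) e),
      fun e he => ?_, i2, i1, i3, hr.trans_le hr'⟩
    obtain ⟨c1, c2, c3, c4, c5, c6, c7, c8⟩ := hM e he
    dsimp only [Win]
    exact ⟨(sB1 _ c2),
      hB1 _ (sA1 _ c1) (by omega) (by omega),
      hB1 _ (sL _ c3 (by omega) (by omega)) (by omega) (by omega),
      (Nat.modEq_iff_dvd' (by omega)).2 ⟨2, by omega⟩, by omega, by omega, by omega⟩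
  have F2 : Fam u S Bad r 254 122 376 := by
    obtain ⟨M, hM, i1, i2, i3, hr'⟩ := match_UI hc hm hL hH hn hn2 (244 * u) H (376 * u) l1 σ
      (by omega) (by omega) (by omega) (by omega) (by omega) (by omega) (by omega) (-1) (2)
      (by norm_num) (by norm_num) (by decide) (by intro x y _ _ _ _; omega)
    refine ⟨M, (fun e => zf (-1) (2) e), (fun e => e.1), (fun e => 2 * e.2),
      fun e he => ?_, i3, i1, (inj_mul 2 (by norm_num) i2), hr.trans_le hr'⟩
    obtain ⟨c1, c2, c3, c4, c5, c6, c7, c8⟩ := hM e he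
    dsimp only [Win]
    exact ⟨(sL _ c3 (by omega) (by omega)),
      hB1 _ (sA2 _ c1) (by omega) (by omega),
      hB _ (sB1 _ c2) 2 (by omega) (by omega),
      (Nat.modEq_iff_dvd' (by omega)).2 ⟨1, by omega⟩, by omega, by omega, by omega⟩
  have F3 : Fam u S Bad r 256 188 444 := by
    obtain ⟨M, hM, i1, i2, i3, hr'⟩ := match_UI hc hm hL hH hn hn2 (376 * u) l1 (444 * u) l2 σ
      (by omega) (by omega) (by omega) (by omega) (by omega) (by omega) (by omega) (-1) (2)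
      (by norm_num) (by norm_num) (by decide) (by intro x y _ _ _ _; omega)
    refine ⟨M, (fun e => zf (-1) (2) e), (fun e => e.1), (fun e => 2 * e.2),
      fun e he => ?_, i3, i1, (inj_mul 2 (by norm_num) i2), hr.trans_le hr'⟩
    obtain ⟨c1, c2, c3, c4, c5, c6, c7, c8⟩ := hM e he
    dsimp only [Win]
    exact ⟨(sL _ c3 (by omega) (by omega)),
      hB1 _ (sB1 _ c1) (by omega) (by omega),
      hB _ (sB2 _ c2) 2 (by omega) (by omega),
      (Nat.modEq_iff_dvd' (by omega)).2 ⟨1, by omega⟩, by omega, by omega, by omega⟩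
  have F4 : Fam u S Bad r 258 222 480 := by
    obtain ⟨M, hM, i1, i2, i3, hr'⟩ := match_UI hc hm hL hH hn hn2 (240 * u) H (444 * u) l2 σ
      (by omega) (by omega) (by omega) (by omega) (by omega) (by omega) (by omega) (4) (-1)
      (by norm_num) (by norm_num) (by decide) (by intro x y _ _ _ _; omega)
    refine ⟨M, (fun e => zf (4) (-1) e), (fun e => e.2), (fun e => 4 * e.1),
      fun e he => ?_, i3, i2, (inj_mul 4 (by norm_num) i1), hr.trans_le hr'⟩
    obtain ⟨c1, c2, c3, c4, c5, c6, c7, c8⟩ := hM e he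
    dsimp only [Win]
    exact ⟨(sL _ c3 (by omega) (by omega)),
      hB1 _ (sB2 _ c2) (by omega) (by omega),
      hB _ (sA1 _ c1) 4 (by omega) (by omega),
      (Nat.modEq_iff_dvd' (by omega)).2 ⟨1, by omega⟩, by omega, by omega, by omega⟩
  have F5 : Fam u S Bad r 222 266 488 := by
    obtain ⟨M, hM, i1, i2, i3, hr'⟩ := match_UI hc hm hL hH hn hn2 (244 * u) H (444 * u) l2 σ
      (by omega) (by omega) (by omega) (by omega) (by omega) (by omega) (by omega) (4) (-1)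
      (by norm_num) (by norm_num) (by decide) (by intro x y _ _ _ _; omega)
    refine ⟨M, (fun e => e.2), (fun e => zf (4) (-1) e), (fun e => 4 * e.1),
      fun e he => ?_, i2, i3, (inj_mul 4 (by norm_num) i1), hr.trans_le hr'⟩
    obtain ⟨c1, c2, c3, c4, c5, c6, c7, c8⟩ := hM e he
    dsimp only [Win]
    exact ⟨(sB2 _ c2),
      hB1 _ (sL _ c3 (by omega) (by omega)) (by omega) (by omega),
      hB _ (sA2 _ c1) 4 (by omega) (by omega),
      (Nat.modEq_iff_dvd' (by omega)).2 ⟨1, by omega⟩, by omega, by omega, by omega⟩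
  have F6 : Fam u S Bad r 251 240 491 := by
    obtain ⟨M, hM, i1, i2, i3, hr'⟩ := match_UI hc hm hL hH hn hn2 (240 * u) H (502 * u) l1 σ
      (by omega) (by omega) (by omega) (by omega) (by omega) (by omega) (by omega) (2) (1)
      (by norm_num) (by norm_num) (by decide) (by intro x y _ _ _ _; omega)
    refine ⟨M, (fun e => e.2), (fun e => 2 * e.1), (fun e => zf (2) (1) e),
      fun e he => ?_, i2, (inj_mul 2 (by norm_num) i1), i3, hr.trans_le hr'⟩
    obtain ⟨c1, c2, c3, c4, c5, c6, c7, c8⟩ := hM e he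
    dsimp only [Win]
    exact ⟨(sL _ (mem_filter.1 c2).2 (by omega) (by omega)),
      hB _ (sA1 _ c1) 2 (by omega) (by omega),
      hB1 _ (sL _ c3 (by omega) (by omega)) (by omega) (by omega),
      (Nat.modEq_iff_dvd' (by omega)).2 ⟨1, by omega⟩, by omega, by omega, by omega⟩
  have F7 : Fam u S Bad r 253 244 497 := by
    obtain ⟨M, hM, i1, i2, i3, hr'⟩ := match_UI hc hm hL hH hn hn2 (244 * u) H (506 * u) l1 σ
      (by omega) (by omega) (by omega) (by omega) (by omega) (by omega) (by omega) (2) (1)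
      (by norm_num) (by norm_num) (by decide) (by intro x y _ _ _ _; omega)
    refine ⟨M, (fun e => e.2), (fun e => 2 * e.1), (fun e => zf (2) (1) e),
      fun e he => ?_, i2, (inj_mul 2 (by norm_num) i1), i3, hr.trans_le hr'⟩
    obtain ⟨c1, c2, c3, c4, c5, c6, c7, c8⟩ := hM e he
    dsimp only [Win]
    exact ⟨(sL _ (mem_filter.1 c2).2 (by omega) (by omega)),
      hB _ (sA2 _ c1) 2 (by omega) (by omega),
      hB1 _ (sL _ c3 (by omega) (by omega)) (by omega) (by omega),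
      (Nat.modEq_iff_dvd' (by omega)).2 ⟨1, by omega⟩, by omega, by omega, by omega⟩
  have F8 : Fam u S Bad r 120 252 492 := by
    obtain ⟨M, hM, i1, i2, i3, hr'⟩ := match_UI hc hm hL hH hn hn2 (240 * u) H (504 * u) l1 σ
      (by omega) (by omega) (by omega) (by omega) (by omega) (by omega) (by omega) (2) (1)
      (by norm_num) (by norm_num) (by decide) (by intro x y _ _ _ _; omega)
    refine ⟨M, (fun e => e.1), (fun e => e.2), (fun e => zf (2) (1) e),
      fun e he => ?_, i1, i2, i3, hr.trans_le hr'⟩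
    obtain ⟨c1, c2, c3, c4, c5, c6, c7, c8⟩ := hM e he
    dsimp only [Win]
    exact ⟨(sA1 _ c1),
      hB1 _ (sL _ (mem_filter.1 c2).2 (by omega) (by omega)) (by omega) (by omega),
      hB1 _ (sL _ c3 (by omega) (by omega)) (by omega) (by omega),
      (Nat.modEq_iff_dvd' (by omega)).2 ⟨2, by omega⟩, by omega, by omega, by omega⟩
  have F9 : Fam u S Bad r 122 255 499 := by
    obtain ⟨M, hM, i1, i2, i3, hr'⟩ := match_UI hc hm hL hH hn hn2 (244 * u) H (510 * u) l1 σ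
      (by omega) (by omega) (by omega) (by omega) (by omega) (by omega) (by omega) (2) (1)
      (by norm_num) (by norm_num) (by decide) (by intro x y _ _ _ _; omega)
    refine ⟨M, (fun e => e.1), (fun e => e.2), (fun e => zf (2) (1) e),
      fun e he => ?_, i1, i2, i3, hr.trans_le hr'⟩
    obtain ⟨c1, c2, c3, c4, c5, c6, c7, c8⟩ := hM e he
    dsimp only [Win]
    exact ⟨(sA2 _ c1),
      hB1 _ (sL _ (mem_filter.1 c2).2 (by omega) (by omega)) (by omega) (by omega),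
      hB1 _ (sL _ c3 (by omega) (by omega)) (by omega) (by omega),
      (Nat.modEq_iff_dvd' (by omega)).2 ⟨2, by omega⟩, by omega, by omega, by omega⟩
  have hcard : (#Bad : ℝ) ≤ #S + 9 * r := by
    have h1 := bad_card u k H hku (by omega) (A1 ∪ A2) (B1 ∪ B2) Lv S Bad hS
      (fun q hq => by
        rcases mem_union.1 hq with h | h
        · exact (bA1 q h).2.1
        · have := bA2 q h; omega)
      (fun q hq => by
        rcases mem_union.1 hq with h | h
        · exact (bB1 q h).2.1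
        · have := bB2 q h; omega)
      (fun q hq => (bL q hq).2.1) (fun n hn => by rw [hBad] at hn; exact mem_filter.1 hn)
    have h2 := card_union_le A1 A2
    have h3 := card_union_le B1 B2
    have h4 : (#Bad : ℝ) ≤ #S + 3 * (#A1 + #A2) + (#B1 + #B2) +
        #((Ioc (k - 1) (k + H)).filter Nat.Prime) := by
      have : #Bad ≤ #S + 3 * (#A1 + #A2) + (#B1 + #B2) +
        #((Ioc (k - 1) (k + H)).filter Nat.Prime) := by omega
      exact_mod_cast this
    have hm' : (2000000 : ℝ) ≤ m := by exact_mod_cast hm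
    have hH' : (1 : ℝ) ≤ H := by exact_mod_cast hH1
    have hη : 0 ≤ η := (abs_nonneg _).trans (hc.pnt 0 0 le_rfl (by omega))
    have hmη : 0 ≤ m * η := by positivity
    have h5 : 10000 * (m * η) ≤ H := by nlinarith
    have h6 : (H : ℝ) ≤ m * H := by nlinarith
    have cd : ∀ (s lam : ℕ), H ≤ lam → k ≤ 5 * s → s + m * lam ≤ k →
        (#((UI s lam H m).filter Nat.Prime) : ℝ) ≤ 1001 / 1000 * (m * H / Real.log k) :=
      fun s lam h1 h2 h3 => (nice_card (nice_UI hc h1 h2 h3) hL (h5.trans h6)).2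
    have d1 := cd (240 * u) H le_rfl (by omega) (by omega)
    have d2 := cd (244 * u) H le_rfl (by omega) (by omega)
    have d3 := cd (376 * u) l1 (by omega) (by omega) (by omega)
    have d4 := cd (444 * u) l2 (by omega) (by omega) (by omega)
    rw [← hA1] at d1
    rw [← hA2] at d2
    rw [← hB1'] at d3
    rw [← hB2] at d4
    have d5 : (#((Ioc (k - 1) (k + H)).filter Nat.Prime) : ℝ) ≤
        1 / 10 * (m * H / Real.log k) := by
      have := top_card (H := H) hc (by omega) (by omega)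
      rw [← mul_div_assoc, le_div_iff₀ hL0]
      nlinarith
    have : 0 ≤ m * H / Real.log k := by positivity
    rw [hr]
    linarith
  obtain ⟨c, hc0, hc1⟩ := merge u S Bad r ![188, 254, 256, 258, 222, 251, 253, 120, 122]
    ![120, 122, 188, 222, 266, 240, 244, 252, 255] ![496, 376, 444, 480, 488, 491, 497, 492, 499]
    (by decide) (by decide) (by decide) (by decide) (fun t => by
      fin_cases t
      exacts [F1, F2, F3, F4, F5, F6, F7, F8, F9]) hcard
  exact realise k H H (by omega) le_rfl S hSp c hc0 fun n hn h =>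
    hc1 n (by rw [hBad]; exact mem_filter.2 ⟨hn, h⟩)

theorem lower (m : ℕ) (hm : 2000000 ≤ m) (K : ℕ) : ∃ k H : ℕ, K ≤ k ∧ k = 640000 * m ^ 3 * H ∧
    ∃ n : ℕ, ∀ i ∈ Icc 1 k,
      H < ∏ p ∈ (range k).filter Nat.Prime, p ^ ((n + i).factorization p) := by
  obtain ⟨κ, hκ⟩ : ∃ κ : ℕ, κ = 640000 * m ^ 3 := ⟨_, rfl⟩
  obtain ⟨K1, h1⟩ := ctx_exists
  obtain ⟨K2, h2⟩ := ev_L' (10 ^ 11 * (κ : ℝ) ^ 3 + 100 * (m * κ) + 1000000)
  obtain ⟨K3, h3⟩ := ev_log' 2 κ
  obtain ⟨H, hH⟩ : ∃ H, H = K + K1 + K2 + K3 + 1 := ⟨_, rfl⟩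
  have hκ1 : 1 ≤ κ := by
    have : 1 ≤ m ^ 3 := Nat.one_le_pow _ _ (by omega)
    omega
  have hHk : H ≤ κ * H := Nat.le_mul_of_pos_left _ hκ1
  obtain ⟨k, hk⟩ : ∃ k, k = κ * H := ⟨_, rfl⟩
  obtain ⟨z, hz⟩ := h1 k (by omega)
  have b2 := h2 k (by omega)
  have b3 := h3 k (by omega)
  have hkR : (k : ℝ) = κ * H := by exact_mod_cast hk
  have hκR : (1 : ℝ) ≤ κ := by exact_mod_cast hκ1
  have hmR : (1 : ℝ) ≤ m := by exact_mod_cast (by omega : 1 ≤ m)
  have hHR : (1 : ℝ) ≤ H := by exact_mod_cast (by omega : 1 ≤ H)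
  have p1 : 0 ≤ 10 ^ 11 * (κ : ℝ) ^ 3 := by positivity
  have p2 : 0 ≤ 100 * ((m : ℝ) * κ) := by positivity
  have hL : 1000000 ≤ Real.log k := by linarith
  have hL0 : 0 < Real.log k := by linarith
  refine ⟨k, H, by omega, by rw [hk, hκ], assemble hz hm hL ?_ ?_ ?_ (by rw [hk, hκ])⟩
  · have h4 : √(k : ℝ) ≤ k := by
      rw [Real.sqrt_le_left (Nat.cast_nonneg _)]
      have : (1 : ℝ) ≤ k := by rw [hkR]; nlinarith
      nlinarith
    refine le_of_mul_le_mul_left ?_ (show (0 : ℝ) < κ by linarith)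
    linarith
  · have e : 10 ^ 11 * ((m * (k / Real.log k ^ 3)) ^ 2 * k * Real.log k ^ 5) =
        (10 ^ 11 * (κ : ℝ) ^ 3 / Real.log k) * (m ^ 2 * H ^ 3) := by
      generalize Real.log k = L at *
      rw [hkR]
      field_simp
    rw [e]
    have h5 : 10 ^ 11 * (κ : ℝ) ^ 3 / Real.log k ≤ m := by
      refine le_trans ?_ hmR
      rw [div_le_one hL0]
      linarith
    calc _ ≤ (m : ℝ) * (m ^ 2 * H ^ 3) := by gcongr
      _ = _ := by ring
  · have e : 100 * (m * (k / Real.log k ^ 3) * Real.log k ^ 2) =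
        (100 * ((m : ℝ) * κ) / Real.log k) * H := by
      generalize Real.log k = L at *
      rw [hkR]
      field_simp
    rw [e]
    refine mul_le_of_le_one_left (by linarith) ?_
    rw [div_le_one hL0]
    linarith

end Pool.Agent.H861Z.Smooth
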